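import Pool.Agent.MP_f7db47_al.VD.Ab
import Pool.Agent.MP_f7db47_al.VC.VMain

/-!
Linear groups and their extensions with virtually solvable kernel.
-/

namespace Pool.Agent.MP_f7db47_al.VD

open GN GF VC Function

variable {Γ Γ' : Type} [Group Γ] [Group Γ']

theorem fj_der (h : FJ Γ') (d : ℕ) : ∀ (Γ : Type) [Group Γ] (p : Γ →* Γ'),
    derivedSeries p.ker d = ⊥ → FJ Γ := by
  induction d with
  | zero =>
    intro Γ _ p hp
    refine h.sub p ((injective_iff_map_eq_one p).2 fun a ha => ?_)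
    have : (⟨a, ha⟩ : p.ker) ∈ derivedSeries p.ker 0 := Subgroup.mem_top _
    rw [hp] at this
    exact congrArg Subtype.val (Subgroup.mem_bot.1 this)
  | succ d ih =>
    intro Γ _ p hp
    let A := (derivedSeries p.ker d).map p.ker.subtype
    have hA : A.Normal := inferInstance
    have hle : A ≤ p.ker := Subgroup.map_subtype_le _
    let p' := QuotientGroup.lift A p hle
    let π : p.ker →* p'.ker := ((QuotientGroup.mk' A).comp p.ker.subtype).codRestrict _ fun x => x.2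
    have hπ : Surjective π := by
      rintro ⟨x, hx⟩
      obtain ⟨x, rfl⟩ := QuotientGroup.mk'_surjective A x
      exact ⟨⟨x, hx⟩, rfl⟩
    refine FJP.ext (QuotientGroup.mk' A) (ih _ p' ?_) fun B hB =>
      fj_abvc ((QuotientGroup.mk' A).subgroupComap B) hB ?_
    · rw [← map_derivedSeries_eq hπ, Subgroup.map_eq_bot_iff]
      exact fun x hx => Subtype.ext ((QuotientGroup.eq_one_iff _).2 ⟨x, hx, rfl⟩)
    · rw [ker_res, QuotientGroup.ker_mk']
      rintro a ⟨x, hx, ha⟩ b ⟨y, hy, hb⟩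
      have h1 := Subgroup.commutator_mem_commutator hx hy
      rw [← derivedSeries_succ, hp, Subgroup.mem_bot, commutatorElement_eq_one_iff_mul_comm] at h1
      refine Subtype.ext ?_
      change (a : Γ) * b = b * a
      have h2 := congrArg p.ker.subtype h1
      rwa [map_mul, map_mul, ha, hb] at h2

theorem fj_solv_ext (p : Γ →* Γ') (h : FJ Γ') (hs : Group.IsSolvable p.ker) : FJ Γ := by
  obtain ⟨d, hd⟩ := hs
  exact fj_der h d Γ p hd

theorem fj_nsz (ψ : Γ →* MZ) (N : Subgroup Γ) (hN : N.Normal) (hU : N ≤ ψ.ker)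
    (hi : N.relIndex ψ.ker ≠ 0) (hs : Group.IsSolvable N) : FJ Γ := by
  refine fj_solv_ext (QuotientGroup.mk' N) (FJP.of_vc ⟨QuotientGroup.lift N ψ hU, ?_⟩)
    (by rwa [QuotientGroup.ker_mk'])
  have h := idx_quot N N ψ.ker (QuotientGroup.lift N ψ hU) rfl hi
  rw [QuotientGroup.map_mk'_self, Subgroup.relIndex_bot_left] at h
  exact Nat.finite_of_card_ne_zero h

theorem fj_vsz (ψ : Γ →* MZ) (U : Subgroup Γ) (hU : U ≤ ψ.ker) (hi : U.relIndex ψ.ker ≠ 0)
    (hs : Group.IsSolvable U) : FJ Γ := by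
  obtain ⟨N, h1, h2, h3, h4⟩ := exists_rad ψ.ker U ψ.normal_ker hU hi hs
  exact fj_nsz ψ N h1 h2 h3 h4

theorem fj_vsolv_ext (p : Γ →* Γ') (h : FJ Γ') (U : Subgroup Γ) (hU : U ≤ p.ker)
    (hi : U.relIndex p.ker ≠ 0) (hs : Group.IsSolvable U) : FJ Γ := by
  refine FJP.ext p h fun B ⟨φ, hφ⟩ => ?_
  have h1 : p.ker ≤ B.comap p := Subgroup.ker_le_comap p B
  have h2 : U.subgroupOf (B.comap p) ≤ (p.subgroupComap B).ker := by
    rw [ker_res]
    exact fun x hx => hU hx
  refine fj_vsz (φ.comp (p.subgroupComap B)) (U.subgroupOf _)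
    (h2.trans fun x hx => ?_) (Subgroup.relIndex_ne_zero_trans ?_ (ker_idx _ φ hφ))
    (Group.isSolvable_of_isSolvable_injective
      (f := (Subgroup.subgroupOfEquivOfLe (hU.trans h1)).toMonoidHom) (MulEquiv.injective _))
  · change φ (p.subgroupComap B x) = 1
    rw [show p.subgroupComap B x = 1 from hx, map_one]
  · rwa [ker_res, Subgroup.relIndex_subgroupOf h1]

theorem fj_GL (A : Type) [CommRing A] (n : ℕ) : FJ (GL (Fin n) A) := by
  refine FJ.gl (MonoidHom.id _) fun H φ h => FJP.loc fun K hK => ?_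
  have := (Group.fg_iff_subgroup_fg K).2 hK
  obtain ⟨S, h1, h2, h3⟩ := virt_solv (H.subtype.comp K.subtype) (φ.comp K.subtype)
    (fun g hg _ => Subtype.ext (Subtype.ext hg)) fun g hg => h g hg
  refine fj_nsz 1 S h1 (fun _ _ => rfl) ?_ h3
  rw [MonoidHom.ker_one, Subgroup.relIndex_top_right]
  exact h2.index_ne_zero

theorem fj_slin {A : Type} [CommRing A] {n : ℕ} (p : Γ →* GL (Fin n) A) (U : Subgroup Γ)
    (hU : U ≤ p.ker) (hi : U.relIndex p.ker ≠ 0) (hs : Group.IsSolvable U) : FJ Γ :=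
  fj_vsolv_ext p (fj_GL A n) U hU hi hs

theorem fj_lie (E : Type) [NormedAddCommGroup E] [NormedSpace ℝ E]
    [FiniteDimensional ℝ E] (L : Type) [TopologicalSpace L] [ChartedSpace E L] [Group L]
    [LieGroup (modelWithCornersSelf ℝ E) 1 L] [Finite (ConnectedComponents L)] : FJ L := by
  obtain ⟨n, f, hf⟩ := GL.exists_ad E L
  have := topologicalGroup_of_lieGroup (modelWithCornersSelf ℝ E) 1 (G := L)
  obtain ⟨L₀, h0, h1⟩ := GL.exists_comp L
  refine fj_slin f (L₀ ⊓ f.ker) inf_le_right ?_ (Group.isSolvable_of_comm fun a b =>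
    Subtype.ext (hf a a.2.2 b (h1 b b.2.1)))
  rw [Subgroup.inf_relIndex_right]
  exact Subgroup.FiniteIndex.index_ne_zero

end Pool.Agent.MP_f7db47_al.VD
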