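import Pool.Agent.MP_f7db47_al.VD.Fc

/-!
Wreath products.
-/

namespace Pool.Agent.MP_f7db47_al.VD

open GN GF VC Function

namespace WrG

variable {H H' X Y Z Γ : Type} [Group H] [Group H'] [Group Γ]

/-- Functoriality. -/
def map (f : H →* H') (Y : Type) : WrG H Y →* WrG H' Y :=
  MonoidHom.mk' (fun x => ⟨fun y => f (x.b y), x.σ⟩) fun x y =>
    WrG.ext (funext fun i => map_mul f _ _) rfl

/-- The permutation part. -/
def perm (H Y : Type) [Group H] : WrG H Y →* Equiv.Perm Y :=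
  MonoidHom.mk' WrG.σ fun _ _ => rfl

/-- The coordinates on the base group. -/
def co (y : Y) : (perm H Y).ker →* H :=
  MonoidHom.mk' (fun x => x.1.b y) fun x x' => by
    have h : x.1.σ = 1 := x.2
    change (x.1 * x'.1).b y = _
    rw [mul_b, h, inv_one, Equiv.Perm.one_apply]

theorem map_inj {f : H →* H'} (hf : Injective f) : Injective (map f Y) :=
  fun _ _ e => WrG.ext (funext fun y => hf (congrArg (fun z => z.b y) e))
    (congrArg (fun z : WrG H' Y => z.σ) e)

/-- Iterated wreath products. -/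
def assoc (H X Y : Type) [Group H] : WrG (WrG H X) Y →* WrG H (Y × X) :=
  MonoidHom.mk' (fun x => ⟨fun p => (x.b p.1).b p.2,
    Equiv.prodShear x.σ fun y => (x.b (x.σ y)).σ⟩) fun x y => by
    refine WrG.ext (funext fun p => ?_) (Equiv.ext fun p => ?_)
    · simp [mul_b, Equiv.Perm.inv_def, Equiv.prodShear]
    · simp [mul_b, mul_σ, Equiv.prodShear]

theorem assoc_inj [Nonempty X] : Injective (assoc H X Y) := by
  refine (injective_iff_map_eq_one _).2 fun x hx => ?_
  obtain ⟨z₀⟩ := ‹Nonempty X›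
  have h1 : x.σ = 1 := Equiv.ext fun y => congrArg (fun w : WrG H (Y × X) => (w.σ (y, z₀)).1) hx
  refine WrG.ext (funext fun y => WrG.ext (funext fun z => ?_) (Equiv.ext fun z => ?_)) h1
  · exact congrArg (fun w : WrG H (Y × X) => w.b (y, z)) hx
  · have h2 : (x.b (x.σ y)).σ z = z := congrArg (fun w : WrG H (Y × X) => (w.σ (y, z)).2) hx
    rwa [h1] at h2

/-- Induction from a subgroup. -/
def ind (U : Subgroup Γ) (σ : Γ →* Equiv.Perm X) (s : X → Γ)
    (h : ∀ g x, (s x)⁻¹ * g * s ((σ g)⁻¹ x) ∈ U) (θ : U →* (Z → H)) : Γ →* WrG H (X × Z) :=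
  MonoidHom.mk' (fun g => ⟨fun p => θ ⟨_, h g p.1⟩ p.2, Equiv.prodCongr (σ g) (Equiv.refl _)⟩)
    fun g g' => by
    refine WrG.ext (funext fun p => ?_) (Equiv.ext fun p => ?_)
    · have e : (⟨_, h (g * g') p.1⟩ : U) = ⟨_, h g p.1⟩ * ⟨_, h g' ((σ g)⁻¹ p.1)⟩ :=
        Subtype.ext (by
          simp only [Subgroup.coe_mul, map_mul, mul_inv_rev, Equiv.Perm.mul_apply, mul_assoc,
            mul_inv_cancel_left])
      change θ ⟨_, h (g * g') p.1⟩ p.2 = _
      rw [e, map_mul]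
      rfl
    · change Prod.map (σ (g * g')) id p = _
      rw [map_mul]
      rfl

theorem ind_ker [Nonempty Z] {U : Subgroup Γ} {σ : Γ →* Equiv.Perm X} {s : X → Γ}
    {h : ∀ g x, (s x)⁻¹ * g * s ((σ g)⁻¹ x) ∈ U} {θ : U →* (Z → H)} {g : Γ}
    (hg : ind U σ s h θ g = 1) (x : X) : ∃ hx : (s x)⁻¹ * g * s x ∈ U, θ ⟨_, hx⟩ = 1 := by
  obtain ⟨z₀⟩ := ‹Nonempty Z›
  have h1 : σ g = 1 := Equiv.ext fun y => congrArg (fun w : WrG H (X × Z) => (w.σ (y, z₀)).1) hg
  have h2 : θ ⟨_, h g x⟩ = 1 := funext fun z => congrArg (fun w : WrG H (X × Z) => w.b (x, z)) hg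
  have h3 := h g x
  have e : (s x)⁻¹ * g * s ((σ g)⁻¹ x) = (s x)⁻¹ * g * s x := by rw [h1]; rfl
  refine ⟨e ▸ h3, ?_⟩
  rw [← h2]
  congr 2
  exact e.symm

end WrG

theorem FJ.gl' {Γ A M : Type} [Group Γ] [CommRing A] [AddCommGroup M] [Module A M]
    [Module.Free A M] [Module.Finite A M] (ρ : Γ →* Module.End A M)
    (h : ∀ (H : Subgroup Γ) (φ : H →* MZ),
      (∀ g : H, φ g = 1 → ∃ m : ℕ, 0 < m ∧ IsNilpotent (ρ g ^ m - 1)) → FJ H) : FJ Γ := by
  classical
  cases subsingleton_or_nontrivial A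
  · have : Subsingleton M := Module.subsingleton A M
    exact (h ⊤ 1 fun g _ => ⟨1, one_pos, 0, Subsingleton.elim _ _⟩).sub
      Subgroup.topEquiv.symm.toMonoidHom (MulEquiv.injective _)
  let e := LinearMap.toMatrixAlgEquiv (Module.finBasis A M)
  refine FJ.gl (e.toMonoidHom.comp ρ).toHomUnits fun H φ hφ => h H φ fun g hg => ?_
  obtain ⟨m, hm, h1⟩ := hφ g hg
  refine ⟨m, hm, (IsNilpotent.map_iff (f := e) e.injective).1 ?_⟩
  rw [map_sub, map_pow, map_one]
  exact h1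

/-- The induced representation. -/
noncomputable def indRep {E A : Type} [Group E] [CommRing A] {n : ℕ} (f : E →* GL (Fin n) A)
    (Y : Type) : WrG E Y →* Module.End A (Y → Fin n → A) where
  toFun x := LinearMap.pi fun y => (Matrix.toLin' (f (x.b y)).val).comp (LinearMap.proj (x.σ⁻¹ y))
  map_one' := by
    refine LinearMap.ext fun v => funext fun y => ?_
    simp [WrG.one_b, WrG.one_σ]
  map_mul' x x' := by
    refine LinearMap.ext fun v => funext fun y => ?_
    simp [WrG.mul_b, WrG.mul_σ]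

theorem indRep_qu {E A Y : Type} [Group E] [CommRing A] {n : ℕ} (f : E →* GL (Fin n) A)
    (x : (WrG.perm E Y).ker) (h : ∃ m : ℕ, 0 < m ∧ IsNilpotent (indRep f Y x ^ m - 1)) (y : Y) :
    QU (f (WrG.co y x)).val := by
  classical
  obtain ⟨m, hm, k, hk⟩ := h
  refine ⟨m, hm, k, ?_⟩
  rw [← map_pow, ← Subgroup.coe_pow] at hk
  rw [← Units.val_pow_eq_pow_val, ← map_pow, ← map_pow]
  generalize x ^ m = z at hk
  have h1 : z.1.σ = 1 := z.2
  have key : ∀ (j : ℕ) (v : Y → Fin n → A),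
      ((indRep f Y z - 1) ^ j) v y = (((f (WrG.co y z)).val - 1) ^ j).mulVec (v y) := by
    intro j
    induction j with
    | zero => simp
    | succ j ih =>
      intro v
      rw [pow_succ, pow_succ, Module.End.mul_apply, ih, ← Matrix.mulVec_mulVec, Matrix.sub_mulVec,
        Matrix.one_mulVec]
      congr 1
      change (f (z.1.b y)).val.mulVec (v (z.1.σ⁻¹ y)) - v y = _
      rw [h1]
      rfl
  refine Matrix.ext_of_mulVec_single fun i => ?_
  have h2 := key k (fun _ => Pi.single i 1)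
  rw [hk] at h2
  rw [← h2, Matrix.zero_mulVec]
  rfl

theorem fj_wrG {E C A : Type} [Group E] [Group C] [CommRing A] {n : ℕ} (f : E →* GL (Fin n) A)
    (π : E →* C) (hC : {c : C | IsOfFinOrder c}.Finite)
    (h : ∀ g, QU (f g).val → IsOfFinOrder (π g) ∧ (π g = 1 → g = 1)) (Y : Type) [Finite Y] :
    FJ (WrG E Y) := by
  refine FJ.gl' (indRep f Y) fun H φ hφ => FJP.of_vc ⟨φ, ?_⟩
  let j : φ.ker →* WrG E Y := H.subtype.comp φ.ker.subtype
  refine (MonoidHom.finite_iff_finite_ker_range ((WrG.perm E Y).comp j)).2 ⟨?_, inferInstance⟩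
  have h1 := fun (x : ((WrG.perm E Y).comp j).ker) y =>
    h _ (indRep_qu f ⟨j x, x.2⟩ (hφ x.1.1 x.1.2) y)
  have := hC.to_subtype
  let j' : ((WrG.perm E Y).comp j).ker →* (WrG.perm E Y).ker :=
    (j.comp (Subgroup.subtype _)).codRestrict _ fun x => x.2
  refine Finite.of_injective (fun x y => (⟨_, (h1 x y).1⟩ : {c : C | IsOfFinOrder c}))
    fun x x' e => ?_
  refine mul_inv_eq_one.1 (Subtype.ext (Subtype.ext (Subtype.ext
    (WrG.ext (funext fun y => (h1 _ y).2 ?_) (x * x'⁻¹).2))))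
  have e1 : π (WrG.co y (j' x)) = π (WrG.co y (j' x')) := congrArg Subtype.val (congrFun e y)
  change π (WrG.co y (j' (x * x'⁻¹))) = 1
  rw [map_mul, map_mul, map_mul, map_inv, map_inv, map_inv, e1, mul_inv_cancel]

end Pool.Agent.MP_f7db47_al.VD
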