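import Pool.Agent.MP_f7db47_al.VD.Mod
import Pool.Agent.MP_f7db47_al.VD.Wr
import Pool.Agent.MP_f7db47_al.VC.Lin3

/-!
Maps to wreath products of lamplighter groups.
-/

namespace Pool.Agent.MP_f7db47_al.VD

open GN GF VC Function

variable {Γ : Type} [Group Γ]

/-- The subgroup generated by `A` and an element that normalises it. -/
def Ex (A : Subgroup Γ) (t : Γ) (h : ∀ n : ℤ, ∀ a ∈ A, t ^ n * a * (t ^ n)⁻¹ ∈ A) :
    Subgroup Γ where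
  carrier := {g | ∃ n : ℤ, g * (t ^ n)⁻¹ ∈ A}
  one_mem' := ⟨0, by simp⟩
  mul_mem' := by
    rintro g g' ⟨n, hn⟩ ⟨m, hm⟩
    refine ⟨n + m, ?_⟩
    rw [show g * g' * (t ^ (n + m))⁻¹ =
      g * (t ^ n)⁻¹ * (t ^ n * (g' * (t ^ m)⁻¹) * (t ^ n)⁻¹) by group]
    exact A.mul_mem hn (h n _ hm)
  inv_mem' := by
    rintro g ⟨n, hn⟩
    refine ⟨-n, ?_⟩
    rw [show g⁻¹ * (t ^ (-n))⁻¹ = t ^ (-n) * (g * (t ^ n)⁻¹)⁻¹ * (t ^ (-n))⁻¹ by group]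
    exact h _ _ (A.inv_mem hn)

variable {ψ : Γ →* MZ} {A : Subgroup Γ} {t : Γ}

theorem Ex_zero (ht : ψ t ≠ 1) {n : ℤ} (h : ψ (t ^ n) = 1) : n = 0 := by
  have h1 : n * (ψ t).toAdd = 0 := by simpa using congrArg Multiplicative.toAdd h
  exact (mul_eq_zero.1 h1).resolve_right ht

theorem Ex_idx (hi : A.relIndex ψ.ker ≠ 0) (ht : ψ t ≠ 1)
    (h : ∀ n : ℤ, ∀ a ∈ A, t ^ n * a * (t ^ n)⁻¹ ∈ A) : (Ex A t h).FiniteIndex := by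
  let P := (Subgroup.zpowers (ψ t)).comap ψ
  have e2 : P.index ≠ 0 := by
    rw [Subgroup.index_comap]
    have : (Subgroup.zpowers (ψ t)).FiniteIndex := ⟨Lin3_zp _ ht⟩
    exact Subgroup.FiniteIndex.index_ne_zero (H := Subgroup.subgroupOf _ _)
  have : Finite (Γ ⧸ P) := Nat.finite_of_card_ne_zero e2
  have : Finite (ψ.ker ⧸ A.subgroupOf ψ.ker) := Nat.finite_of_card_ne_zero hi
  have : Finite (Γ ⧸ Ex A t h) := by
    refine Finite.of_surjective (fun x : (Γ ⧸ P) × (ψ.ker ⧸ A.subgroupOf ψ.ker) =>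
      ((x.1.out * x.2.out.1 : Γ) : Γ ⧸ Ex A t h)) fun y => ?_
    obtain ⟨g, rfl⟩ := QuotientGroup.mk_surjective y
    obtain ⟨n, hn⟩ : (g : Γ ⧸ P).out⁻¹ * g ∈ P := QuotientGroup.eq.1 (QuotientGroup.out_eq' _)
    have h1 : (g : Γ ⧸ P).out⁻¹ * g * (t ^ n)⁻¹ ∈ ψ.ker := by
      rw [MonoidHom.mem_ker, map_mul, map_inv, map_zpow, ← hn]
      simp
    let κ : ψ.ker ⧸ A.subgroupOf ψ.ker := QuotientGroup.mk ⟨_, h1⟩
    have h2 : κ.out.1⁻¹ * ((g : Γ ⧸ P).out⁻¹ * g * (t ^ n)⁻¹) ∈ A :=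
      Subgroup.mem_subgroupOf.1 (QuotientGroup.eq.1 (QuotientGroup.out_eq' κ))
    exact ⟨(g, κ), QuotientGroup.eq.2 ⟨n, by simpa only [mul_inv_rev, mul_assoc] using h2⟩⟩
  exact Subgroup.finiteIndex_of_finite_quotient

theorem exists_gens [Group.FG Γ] (hA : A.Normal) (hle : A ≤ ψ.ker) (hi : A.relIndex ψ.ker ≠ 0)
    (ht : ψ t ≠ 1) : ∃ F : Set Γ, F.Finite ∧ F ⊆ A ∧ ∀ M : Subgroup Γ, M ≤ A → F ⊆ M →
      (∀ n : ℤ, ∀ a ∈ M, t ^ n * a * (t ^ n)⁻¹ ∈ M) → A ≤ M := by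
  have h : ∀ n : ℤ, ∀ a ∈ A, t ^ n * a * (t ^ n)⁻¹ ∈ A := fun n a ha => hA.conj_mem a ha _
  have := Ex_idx hi ht h
  obtain ⟨S, hS, hS'⟩ := (Subgroup.fg_iff _).1 ((Group.fg_iff_subgroup_fg (Ex A t h)).1
    (Subgroup.fg_of_index_ne_zero _))
  have h1 : ∀ g : S, ∃ n : ℤ, g * (t ^ n)⁻¹ ∈ A := fun g =>
    (hS ▸ Subgroup.subset_closure g.2 : g.1 ∈ Ex A t h)
  choose ν hν using h1
  have := hS'.to_subtype
  refine ⟨Set.range fun g : S => g * (t ^ ν g)⁻¹, Set.finite_range _,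
    by rintro _ ⟨g, rfl⟩; exact hν g, fun M hM hF hc a ha => ?_⟩
  have h2 : Ex A t h ≤ Ex M t hc := by
    rw [← hS, Subgroup.closure_le]
    exact fun g hg => ⟨ν ⟨g, hg⟩, hF ⟨⟨g, hg⟩, rfl⟩⟩
  obtain ⟨n, hn⟩ := h2 (⟨0, by simpa using ha⟩ : a ∈ Ex A t h)
  have h3 : ψ (a * (t ^ n)⁻¹) = 1 := hle (hM hn)
  rw [map_mul, show ψ a = 1 from hle ha, one_mul, map_inv, inv_eq_one] at h3
  simpa [Ex_zero ht h3] using hn

theorem exists_lamp [Group.FG Γ] {k U : Type} [Field k] [AddCommGroup U] [Module k U]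
    (hA : A.Normal) (hle : A ≤ ψ.ker) (hi : A.relIndex ψ.ker ≠ 0) (ht : ψ t ≠ 1)
    (L : Γ →* Module.End k U) (e : Γ → U) (h1 : ∀ a ∈ A, ∀ b ∈ A, e (a * b) = e a + e b)
    (h2 : ∀ γ, ∀ a ∈ A, e (γ * a * γ⁻¹) = L γ (e a)) :
    ∃ (Y : Type) (_ : Finite Y) (p : Γ →* WrG (Lamp k) Y) (V : Submodule k U),
      FiniteDimensional k V ∧ ∀ g ∈ p.ker, g ∈ A ∧ e g ∈ V := by
  have h : ∀ n : ℤ, ∀ a ∈ A, t ^ n * a * (t ^ n)⁻¹ ∈ A := fun n a ha => hA.conj_mem a ha _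
  have := Ex_idx hi ht h
  obtain ⟨F, f1, f2, f3⟩ := exists_gens hA hle hi ht
  obtain ⟨ι, _, M, V, Λ, hρ, hV, g1, g2, g3⟩ :=
    exists_fun (L.comp (zpowersHom Γ t)) (e '' F) (f1.image e)
  let ε : A →* Multiplicative U :=
    MonoidHom.mk' (fun a => Multiplicative.ofAdd (e a)) fun a b => h1 a a.2 b b.2
  have hM : ∀ a ∈ A, e a ∈ M := fun a ha => by
    obtain ⟨b, hb, rfl⟩ := f3 ((M.toSubgroup.comap ε).map A.subtype) (Subgroup.map_subtype_le _)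
      (fun x hx => ⟨⟨x, f2 hx⟩, g1 ⟨x, hx, rfl⟩, rfl⟩) (by
        rintro n _ ⟨b, hb, rfl⟩
        refine ⟨⟨_, h n b b.2⟩, ?_, rfl⟩
        change e _ ∈ M
        rw [h2 _ _ b.2]
        exact hρ (Multiplicative.ofAdd n) _ hb) ha
    exact hb
  choose ν hν using fun g : Ex A t h => g.2
  have hu : ∀ (g : Ex A t h) (n : ℤ), g.1 * (t ^ n)⁻¹ ∈ A → ν g = n := fun g n hn => by
    have h3 : ψ ((g.1 * (t ^ ν g)⁻¹)⁻¹ * (g.1 * (t ^ n)⁻¹)) = 1 :=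
      hle (A.mul_mem (A.inv_mem (hν g)) hn)
    rw [show (g.1 * (t ^ ν g)⁻¹)⁻¹ * (g.1 * (t ^ n)⁻¹) = t ^ (ν g - n) by group] at h3
    exact sub_eq_zero.1 (Ex_zero ht h3)
  have e1 : ∀ g g' : Ex A t h, (g * g').1 * (t ^ (ν g + ν g'))⁻¹ =
      g.1 * (t ^ ν g)⁻¹ * (t ^ ν g * (g'.1 * (t ^ ν g')⁻¹) * (t ^ ν g)⁻¹) := fun g g' => by
    rw [Subgroup.coe_mul]
    group
  have e2 : ∀ g g', ν (g * g') = ν g + ν g' := fun g g' =>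
    hu _ _ (e1 g g' ▸ A.mul_mem (hν g) (h _ _ (hν g')))
  let θ : Ex A t h →* (Option ι → Lamp k) :=
    MonoidHom.mk' (fun g i => ⟨i.elim 0 (Λ ⟨_, hM _ (hν g)⟩), ν g⟩) fun g g' => funext fun i => by
      refine Lamp.ext (Finsupp.ext fun j => ?_) (e2 g g')
      rw [Pi.mul_apply, Lamp.mul_f]
      rcases i with _ | i
      · exact (add_zero _).symm
      have e3 : (⟨_, hM _ (hν (g * g'))⟩ : M) = ⟨_, hM _ (hν g)⟩ +
          ⟨_, hρ (Multiplicative.ofAdd (ν g)) _ (hM _ (hν g'))⟩ := Subtype.ext (by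
        change e _ = e _ + L (t ^ ν g) (e _)
        rw [e2, e1, h1 _ (hν g) _ (h _ _ (hν g')), h2 _ _ (hν g')])
      change Λ _ i j = Λ _ i j + Λ _ i (j - ν g)
      rw [e3, map_add, Pi.add_apply, Finsupp.add_apply,
        g2 (Multiplicative.ofAdd (ν g)) ⟨_, hM _ (hν g')⟩]
      rfl
  refine ⟨(Γ ⧸ Ex A t h) × Option ι, inferInstance, WrG.ind (Ex A t h) (MulAction.toPermHom Γ _)
    Quotient.out (fun g c => by rw [← map_inv]; exact Vab_mem _ g c) θ, V, hV, fun g hg => ?_⟩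
  let c : Γ ⧸ Ex A t h := ((1 : Γ) : Γ ⧸ Ex A t h)
  obtain ⟨h3, h4⟩ := WrG.ind_ker ((MonoidHom.normal_ker _).conj_mem g hg c.out) c
  have h5 : c.out⁻¹ * (c.out * g * c.out⁻¹) * c.out = g := by group
  have h6 : ν ⟨_, h3⟩ = 0 := congrArg (fun z : Option ι → Lamp k => (z none).e) h4
  have h7 := hν ⟨_, h3⟩
  have h8 := g3 ⟨_, hM _ h7⟩
    (funext fun i => congrArg (fun z : Option ι → Lamp k => (z (some i)).f) h4)
  simp only [h6, zpow_zero, inv_one, mul_one] at h7 h8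
  rw [h5] at h7 h8
  exact ⟨h7, h8⟩

end Pool.Agent.MP_f7db47_al.VD
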