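import Pool.Agent.MP_f7db47_al.VD.D0

/-!
A representation of the free product of an abelian group with the integers.
-/

namespace Pool.Agent.MP_f7db47_al.VD

open GN GF VC Function Monoid Matrix

section

variable {C D : Type} [Group C] [Group D]

/-- The product of a list of pairs. -/
def wd (l : List (C × D)) : Coprod C D := (l.map fun p => Coprod.inl p.1 * Coprod.inr p.2).prod

theorem wd_nil : wd ([] : List (C × D)) = 1 := rfl

theorem wd_cons (p : C × D) (l : List (C × D)) :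
    wd (p :: l) = Coprod.inl p.1 * Coprod.inr p.2 * wd l := by simp [wd]

theorem wd_append (l l' : List (C × D)) : wd (l ++ l') = wd l * wd l' := by simp [wd]

theorem exists_wd (g : Coprod C D) : ∃ l, g = wd l := by
  induction g using Coprod.induction_on with
  | inl c => exact ⟨[(c, 1)], by simp [wd]⟩
  | inr d => exact ⟨[(1, d)], by simp [wd]⟩
  | mul x y hx hy =>
    obtain ⟨l, rfl⟩ := hx
    obtain ⟨l', rfl⟩ := hy
    exact ⟨_, (wd_append l l').symm⟩

theorem conj_swap {G : Type} [Group G] (a b : G) : IsConj (a * b) (b * a) :=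
  isConj_iff.2 ⟨b, by group⟩

theorem wd_tri (n : ℕ) : ∀ l : List (C × D), l.length = n → (∃ c, IsConj (Coprod.inl c) (wd l)) ∨
    (∃ d, IsConj (Coprod.inr d) (wd l)) ∨
    ∃ l', l' ≠ [] ∧ (∀ p ∈ l', p.1 ≠ 1 ∧ p.2 ≠ 1) ∧ IsConj (wd l') (wd l) := by
  induction n using Nat.strong_induction_on with
  | _ n ih =>
  intro l hl
  by_cases h : ∀ p ∈ l, p.1 ≠ 1 ∧ p.2 ≠ 1
  · by_cases h0 : l = []
    · exact Or.inl ⟨1, by rw [h0, wd_nil, map_one]⟩
    · exact Or.inr (Or.inr ⟨l, h0, h, IsConj.refl _⟩)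
  obtain ⟨p, hp⟩ := not_forall.1 h
  obtain ⟨hp, hp'⟩ := Classical.not_imp.1 hp
  obtain ⟨l₁, l₂, rfl⟩ := List.append_of_mem hp
  have h1 : IsConj (wd (p :: (l₂ ++ l₁))) (wd (l₁ ++ p :: l₂)) := by
    rw [← List.cons_append, wd_append, wd_append]
    exact conj_swap _ _
  have h2 : (l₂ ++ l₁).length + 1 = n := by
    rw [← hl]
    simp only [List.length_append, List.length_cons]
    omega
  generalize l₂ ++ l₁ = m at h1 h2
  have h3 : ∀ m' : List (C × D), m'.length < n → IsConj (wd m') (wd (p :: m)) →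
      (∃ c, IsConj (Coprod.inl c) (wd (l₁ ++ p :: l₂))) ∨
      (∃ d, IsConj (Coprod.inr d) (wd (l₁ ++ p :: l₂))) ∨
      ∃ l', l' ≠ [] ∧ (∀ p ∈ l', p.1 ≠ 1 ∧ p.2 ≠ 1) ∧ IsConj (wd l') (wd (l₁ ++ p :: l₂)) :=
    fun m' hm hc => (ih _ hm m' rfl).imp (fun ⟨c, h⟩ => ⟨c, (h.trans hc).trans h1⟩)
      (Or.imp (fun ⟨c, h⟩ => ⟨c, (h.trans hc).trans h1⟩)
        fun ⟨c, h, h', h''⟩ => ⟨c, h, h', (h''.trans hc).trans h1⟩)
  by_cases e1 : p.1 = 1
  · rcases List.eq_nil_or_concat m with rfl | ⟨m', a, rfl⟩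
    · exact Or.inr (Or.inl ⟨p.2, by simpa [wd, e1] using h1⟩)
    · refine h3 (m' ++ [(a.1, a.2 * p.2)]) (by simp at h2 ⊢; omega) ?_
      rw [wd_cons, e1, map_one, one_mul]
      refine IsConj.trans (b := wd (m'.concat a) * Coprod.inr p.2) ?_ (conj_swap _ _)
      rw [show wd (m' ++ [(a.1, a.2 * p.2)]) = wd (m'.concat a) * Coprod.inr p.2 by
        simp [wd, mul_assoc]]
  have e2 : p.2 = 1 := by_contra fun e2 => hp' ⟨e1, e2⟩
  rcases m with _ | ⟨a, m'⟩
  · exact Or.inl ⟨p.1, by simpa [wd, e2] using h1⟩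
  · refine h3 ((p.1 * a.1, a.2) :: m') (by simp at h2 ⊢; omega) ?_
    rw [show wd ((p.1 * a.1, a.2) :: m') = wd (p :: a :: m') by simp [wd, e2, mul_assoc]]

end

section

variable {K Γ₀ : Type} [CommRing K] [LinearOrderedCommGroupWithZero Γ₀] (v : Valuation K Γ₀)

/-- One column dominates. -/
def Big (j : Fin 2) (w : Matrix (Fin 2) (Fin 2) K) : Prop :=
  ∃ γ, 1 < γ ∧ (∀ i, v (w i j) = γ) ∧ ∀ i l, l ≠ j → v (w i l) < γ

variable {v} {M : Matrix (Fin 2) (Fin 2) K} {d : Fin 2 → K}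

theorem Big.base (hM : ∀ i l, v (M i l) = 1) (hne : v (d 0) ≠ v (d 1))
    (h1 : 1 < max (v (d 0)) (v (d 1))) : ∃ j, Big v j (M * diagonal d) := by
  rcases lt_or_gt_of_ne hne with h | h
  · refine ⟨1, v (d 1), by rwa [max_eq_right h.le] at h1, fun i => by simp [hM], fun i l hl => ?_⟩
    obtain rfl : l = 0 := by omega
    simpa [hM] using h
  · refine ⟨0, v (d 0), by rwa [max_eq_left h.le] at h1, fun i => by simp [hM], fun i l hl => ?_⟩
    obtain rfl : l = 1 := by omega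
    simpa [hM] using h

theorem Big.step (hM : ∀ i l, v (M i l) = 1) (hne : v (d 0) ≠ v (d 1))
    (h1 : 1 < max (v (d 0)) (v (d 1))) {j : Fin 2} {w : Matrix (Fin 2) (Fin 2) K}
    (h : Big v j w) : Big v j (M * diagonal d * w) := by
  obtain ⟨γ, h2, h3, h4⟩ := h
  have h0 : 0 < γ := zero_lt_one.trans h2
  have e : ∀ i l, (M * diagonal d * w) i l = M i 0 * d 0 * w 0 l + M i 1 * d 1 * w 1 l :=
    fun i l => by simp [Matrix.mul_apply (M := M * diagonal d)]
  refine ⟨max (v (d 0)) (v (d 1)) * γ, one_lt_mul_of_lt_of_le h1 h2.le, fun i => ?_,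
    fun i l hl => ?_⟩
  · rw [e, v.map_add_of_distinct_val (by simpa [hM, h3, h0.ne'] using hne)]
    simp [hM, h3, max_mul]
  · rw [e]
    refine v.map_add_lt ?_ ?_
    · simp only [map_mul, hM, one_mul]
      exact mul_lt_mul_of_le_of_lt_of_nonneg_of_pos (le_max_left _ _) (h4 _ l hl) zero_le
        (zero_lt_one.trans h1)
    · simp only [map_mul, hM, one_mul]
      exact mul_lt_mul_of_le_of_lt_of_nonneg_of_pos (le_max_right _ _) (h4 _ l hl) zero_le
        (zero_lt_one.trans h1)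

theorem val_two : v 2 ≤ 1 := by
  rw [← one_add_one_eq_two]
  exact v.map_add_le (by simp) (by simp)

theorem Big.trace {j : Fin 2} {w : Matrix (Fin 2) (Fin 2) K} (h : Big v j w) : w.trace ≠ 2 := by
  obtain ⟨γ, h2, h3, h4⟩ := h
  intro e
  have h5 : v w.trace = γ := by
    rw [trace_fin_two]
    fin_cases j
    · exact (v.map_add_eq_of_lt_left ((h4 1 1 (by simp)).trans_eq (h3 0).symm)).trans (h3 0)
    · exact (v.map_add_eq_of_lt_right ((h4 0 0 (by simp)).trans_eq (h3 1).symm)).trans (h3 1)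
  rw [e] at h5
  exact absurd (h5 ▸ val_two) (not_le.2 h2)

end

/-- Matrices with eigenvalues `z` and `1`. -/
noncomputable def ell : ℂ →* Matrix (Fin 2) (Fin 2) ℂ where
  toFun z := !![(2 * z + 1) / 3, (z - 1) / 3; 2 * (z - 1) / 3, (z + 2) / 3]
  map_one' := by
    ext i j
    fin_cases i <;> fin_cases j <;> norm_num
  map_mul' z w := by
    ext i j
    fin_cases i <;> fin_cases j <;> simp [Matrix.mul_apply] <;> ring

/-- Diagonal matrices. -/
noncomputable def hyp : MZ →* Matrix (Fin 2) (Fin 2) (RatFunc ℂ) where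
  toFun n := diagonal ![RatFunc.X ^ n.toAdd, RatFunc.X ^ (-n.toAdd)]
  map_one' := by
    ext i j
    fin_cases i <;> fin_cases j <;> simp
  map_mul' z w := by
    rw [diagonal_mul_diagonal]
    congr 1
    ext i
    have h : (RatFunc.X : RatFunc ℂ) ≠ 0 := RatFunc.X_ne_zero
    fin_cases i <;> simp [zpow_add₀ h, mul_comm]

theorem exists_rep {C : Type} [CommGroup C] (χ : C →* ℂ) (hi : Injective χ)
    (hχ : ∀ c, χ c ≠ -2) : ∃ f : Coprod C MZ →* GL (Fin 2) (RatFunc ℂ),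
    ∀ g, QU (f g).val → IsOfFinOrder (Coprod.fst g) ∧ (Coprod.fst g = 1 → g = 1) := by
  classical
  let v := RatFunc.inftyValuation ℂ
  let M : C →* Matrix (Fin 2) (Fin 2) (RatFunc ℂ) :=
    (RatFunc.C (K := ℂ)).mapMatrix.toMonoidHom.comp (ell.comp χ)
  let F := Coprod.lift M hyp
  have hM : ∀ c, c ≠ 1 → ∀ i l, v (M c i l) = 1 := fun c hc i l => by
    refine RatFunc.inftyValuation.C ℂ (k := ell (χ c) i l) ?_
    have h1 : χ c - 1 ≠ 0 := sub_ne_zero.2 fun e => hc (hi (e.trans χ.map_one.symm))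
    have h2 : χ c + 2 ≠ 0 := fun e => hχ c (eq_neg_of_add_eq_zero_left e)
    have h3 : 2 * χ c + 1 ≠ 0 := fun e => hχ c⁻¹ (by
      have h4 : χ c * χ c⁻¹ = 1 := by rw [← map_mul, mul_inv_cancel, map_one]
      linear_combination χ c⁻¹ * e - 2 * h4)
    fin_cases i <;> fin_cases l <;> simp [ell, h1, h2, h3]
  have hd : ∀ n : ℤ, n ≠ 0 → v (RatFunc.X ^ n) ≠ v (RatFunc.X ^ (-n)) ∧
      1 < max (v (RatFunc.X ^ n)) (v (RatFunc.X ^ (-n))) := fun n hn => by
    rw [RatFunc.inftyValuation.X_zpow, RatFunc.inftyValuation.X_zpow, ← WithZero.exp_zero,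
      lt_max_iff, WithZero.exp_lt_exp, WithZero.exp_lt_exp, Ne, WithZero.exp_inj]
    omega
  have hs : ∀ l : List (C × MZ), (∀ p ∈ l, p.1 ≠ 1 ∧ p.2 ≠ 1) → ∀ j w, Big v j w →
      Big v j (F (wd l) * w) := by
    intro l hl j w hw
    induction l with
    | nil => simpa [wd_nil] using hw
    | cons p l ih =>
      obtain ⟨h1, h2⟩ := hl p List.mem_cons_self
      rw [wd_cons, map_mul, mul_assoc, map_mul]
      exact Big.step (hM _ h1) (hd _ h2).1 (hd _ h2).2
        (ih fun q hq => hl q (List.mem_cons_of_mem _ hq))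
  refine ⟨F.toHomUnits, fun g ⟨m, hm, h⟩ => ?_⟩
  have h1 : ∀ g', IsConj g' g → (F (g' ^ m)).trace = 2 := fun g' hg => by
    obtain ⟨c, hc⟩ := isConj_iff.1 (hg.pow m)
    have h2 := (isNilpotent_trace_of_isNilpotent h).eq_zero
    rw [← Units.val_pow_eq_pow_val, ← map_pow, ← hc, map_mul, map_mul, map_inv, Units.val_mul,
      Units.val_mul, trace_sub, trace_units_conj, trace_one, sub_eq_zero] at h2
    exact h2
  obtain ⟨l, rfl⟩ := exists_wd g
  rcases wd_tri _ l rfl with ⟨c, hc⟩ | ⟨n, hn⟩ | ⟨l', h2, h3, h4⟩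
  · have e1 : c = Coprod.fst (wd l) := isConj_iff_eq.1 (Coprod.fst.map_isConj hc)
    have h2 := h1 _ hc
    rw [← map_pow, Coprod.lift_apply_inl, trace_fin_two] at h2
    have h3 : RatFunc.C ((2 * χ (c ^ m) + 1) / 3 + (χ (c ^ m) + 2) / 3) = RatFunc.C (2 : ℂ) := by
      rw [map_add, map_ofNat]
      exact h2
    have h4 := RatFunc.C_injective h3
    refine ⟨e1 ▸ isOfFinOrder_iff_pow_eq_one.2 ⟨m, hm, hi ?_⟩, fun e => ?_⟩
    · rw [map_one]
      linear_combination h4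
    · rw [e1, e, map_one] at hc
      exact isConj_one_right.1 hc
  · have h2 := h1 _ hn
    rw [← map_pow, Coprod.lift_apply_inr] at h2
    have h3 : n ^ m = 1 := by_contra fun e => by
      have h4 : RatFunc.X ^ (n ^ m).toAdd + RatFunc.X ^ (-(n ^ m).toAdd) = (2 : RatFunc ℂ) := by
        rw [← h2, trace_fin_two]
        rfl
      have h5 := v.map_add_of_distinct_val (hd (n ^ m).toAdd e).1
      rw [h4] at h5
      exact absurd (h5 ▸ val_two) (not_le.2 (hd (n ^ m).toAdd e).2)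
    rw [(pow_eq_one_iff_left hm.ne').1 h3, map_one] at hn
    rw [isConj_one_right.1 hn]
    exact ⟨by simp, fun _ => rfl⟩
  · obtain ⟨l₁, p, rfl⟩ := (List.eq_nil_or_concat l').resolve_left h2
    rw [List.concat_eq_append] at h3 h4
    obtain ⟨h5, h6⟩ := h3 p (by simp)
    obtain ⟨j, hj⟩ := Big.base (d := ![_, _]) (hM _ h5) (hd _ h6).1 (hd _ h6).2
    have h7 : Big v j (F (wd (l₁ ++ [p]))) := by
      rw [wd_append, map_mul, wd_cons, wd_nil, mul_one, map_mul]
      exact hs l₁ (fun q hq => h3 q (by simp [hq])) j _ hj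
    have h8 : ∀ k : ℕ, Big v j (F (wd (l₁ ++ [p]) ^ (k + 1))) := fun k => by
      induction k with
      | zero => simpa using h7
      | succ k ih =>
        rw [pow_succ', map_mul]
        exact hs _ h3 j _ ih
    obtain ⟨k, rfl⟩ := Nat.exists_eq_add_one_of_ne_zero hm.ne'
    exact absurd (h1 _ h4) (h8 k).trace

end Pool.Agent.MP_f7db47_al.VD
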