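import Pool.Agent.MP_f7db47_al.VD.Wr
import Pool.Agent.MP_f7db47_al.VD.Fp

/-!
Lamplighter groups.
-/

namespace Pool.Agent.MP_f7db47_al.VD

open GN GF VC Function Monoid

namespace Lamp

variable {k : Type} [AddCommGroup k]

variable (k) in
/-- The translations. -/
noncomputable def tr : MZ →* Lamp k :=
  MonoidHom.mk' (fun n => ⟨0, n.toAdd⟩) fun _ _ =>
    Lamp.ext (Finsupp.ext fun j => by simp [mul_f]) rfl

variable (k) in
/-- The covering by a free product. -/
noncomputable def cov : Coprod (Multiplicative k) MZ →* Lamp k :=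
  Coprod.lift (MonoidHom.mk' (fun c => ⟨Finsupp.single 0 c.toAdd, 0⟩) fun _ _ =>
    Lamp.ext (Finsupp.ext fun j => by simp [mul_f]) rfl) (tr k)

theorem cov_fst (z : Coprod (Multiplicative k) MZ) (h : cov k z = 1) : Coprod.fst z = 1 := by
  let τ : Lamp k →* Multiplicative k :=
    MonoidHom.mk' (fun x => Multiplicative.ofAdd (x.f.sum fun _ c => c)) fun x y => by
      change Multiplicative.ofAdd ((x.f + sh x.e y.f).sum fun _ c => c) = _
      rw [Finsupp.sum_add_index' (fun _ => rfl) (fun _ _ _ => rfl), sh, Finsupp.sum_equivMapDomain]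
      rfl
  have e : τ.comp (cov k) = Coprod.fst := Coprod.hom_ext
    (MonoidHom.ext fun c => by simp [τ, cov]) (MonoidHom.ext fun n => by simp [τ, cov, tr])
  rw [← e, MonoidHom.comp_apply, h, map_one]

/-- A word with one letter from the first factor. -/
def wrd (j : ℤ) (c : k) (e : ℤ) : Coprod (Multiplicative k) MZ :=
  Coprod.inr (Multiplicative.ofAdd j) * Coprod.inl (Multiplicative.ofAdd c) *
    Coprod.inr (Multiplicative.ofAdd (e - j))

/-- The local section. -/
noncomputable def sec (x : Lamp k) : Coprod (Multiplicative k) MZ :=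
  wrd (x.f.support.sum id) (x.f (x.f.support.sum id)) x.e

theorem wrd_zero (j e : ℤ) : wrd j (0 : k) e = Coprod.inr (Multiplicative.ofAdd e) := by
  rw [wrd, ofAdd_zero, map_one, mul_one, ← map_mul, ← ofAdd_add, add_sub_cancel]

theorem sec_eq {x : Lamp k} {j : ℤ} {c : k} (h : x.f = Finsupp.single j c) :
    sec x = wrd j c x.e := by
  by_cases hc : c = 0
  · rw [sec, h, hc, Finsupp.single_zero, Finsupp.zero_apply, wrd_zero, wrd_zero]
  · rw [sec, h, Finsupp.support_single _ hc, Finset.sum_singleton, id,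
      Finsupp.single_eq_same]

theorem cov_sec {x : Lamp k} (h : ∃ j c, x.f = Finsupp.single j c) : cov k (sec x) = x := by
  obtain ⟨j, c, h⟩ := h
  rw [sec_eq h, wrd, map_mul, map_mul]
  change (⟨0, j⟩ * ⟨Finsupp.single 0 c, 0⟩ * ⟨0, x.e - j⟩ : Lamp k) = x
  refine Lamp.ext (Finsupp.ext fun i => ?_) ?_
  · simp [mul_f, h, Finsupp.single_apply, eq_sub_iff_add_eq]
  · simp [mul_e]

theorem sec_mul {x y : Lamp k} (hx : ∃ j c, x.f = Finsupp.single j c)
    (hy : ∃ j c, y.f = Finsupp.single j c) (h : ∃ j c, (x * y).f = Finsupp.single j c) :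
    sec (x * y) = sec x * sec y := by
  obtain ⟨j, c, hx⟩ := hx
  obtain ⟨j', c', hy⟩ := hy
  have e : (x * y).f = Finsupp.single j c + Finsupp.single (j' + x.e) c' := Finsupp.ext fun i => by
    simp [mul_f, hx, hy, Finsupp.single_apply, eq_sub_iff_add_eq]
  rw [sec_eq hx, sec_eq hy]
  by_cases hc : c = 0
  · rw [hc, Finsupp.single_zero, zero_add] at e
    rw [sec_eq e, hc, wrd_zero, wrd, wrd, mul_e, ← mul_assoc, ← mul_assoc, ← map_mul, ← ofAdd_add,
      add_comm x.e j', show x.e + y.e - (j' + x.e) = y.e - j' by ring]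
  by_cases hc' : c' = 0
  · rw [hc', Finsupp.single_zero, add_zero] at e
    rw [sec_eq e, hc', wrd_zero, wrd, wrd, mul_e, show x.e + y.e - j = x.e - j + y.e by ring,
      ofAdd_add, map_mul, ← mul_assoc]
  have hj : j' + x.e = j := by
    obtain ⟨i, a, h⟩ := h
    by_contra hj
    rw [e] at h
    have h1 := DFunLike.congr_fun h j
    have h2 := DFunLike.congr_fun h (j' + x.e)
    rw [Finsupp.add_apply, Finsupp.single_eq_same, Finsupp.single_eq_of_ne' hj, add_zero] at h1
    rw [Finsupp.add_apply, Finsupp.single_eq_same, Finsupp.single_eq_of_ne hj, zero_add] at h2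
    exact hj (((Finsupp.single_apply_ne_zero.1 (h2 ▸ hc')).1).trans
      (Finsupp.single_apply_ne_zero.1 (h1 ▸ hc)).1.symm)
  rw [hj, ← Finsupp.single_add] at e
  have e1 : (Coprod.inr (Multiplicative.ofAdd (x.e - j)) : Coprod (Multiplicative k) MZ) *
      Coprod.inr (Multiplicative.ofAdd j') = 1 := by
    rw [← map_mul, ← ofAdd_add, show x.e - j + j' = 0 by omega, ofAdd_zero, map_one]
  rw [sec_eq e, wrd, wrd, wrd, mul_e, show x.e + y.e - j = y.e - j' by omega, ofAdd_add, map_mul]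
  simp only [mul_assoc]
  rw [← mul_assoc (Coprod.inr (Multiplicative.ofAdd (x.e - j))), e1, one_mul]

variable (k) in
/-- The elements whose shift is divisible by `m`. -/
def sub (m : ℕ) : Subgroup (Lamp k) where
  carrier := {x | (m : ℤ) ∣ x.e}
  one_mem' := dvd_zero _
  mul_mem' := dvd_add
  inv_mem' := fun h => (dvd_neg.2 h :)

/-- Splitting into residue classes. -/
noncomputable def spl (m : ℕ) (hm : 0 < m) : sub k m →* (Fin m → Lamp k) :=
  MonoidHom.mk' (fun x r => ⟨x.1.f.comapDomain (fun j => m * j + r)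
    (fun _ _ _ _ e => mul_left_cancel₀ (Nat.cast_ne_zero.2 hm.ne') (add_right_cancel e)),
    x.1.e / m⟩) fun x y => funext fun r => by
    refine Lamp.ext (Finsupp.ext fun j => ?_) (Int.add_ediv_of_dvd_left x.2)
    change (x.1 * y.1).f (m * j + r) = _
    rw [mul_f, Pi.mul_apply, mul_f]
    change _ = x.1.f (m * j + r) + y.1.f (m * (j - x.1.e / m) + r)
    rw [mul_sub, Int.mul_ediv_cancel' x.2]
    congr 2
    ring

theorem spl_inj (m : ℕ) (hm : 0 < m) (x : sub k m) (h : spl m hm x = 1) : x = 1 := by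
  have h0 : (0 : ℤ) < m := by exact_mod_cast hm
  refine Subtype.ext (Lamp.ext (Finsupp.ext fun j => ?_) ?_)
  · have h1 := Int.emod_nonneg j h0.ne'
    have h2 := Int.emod_lt_of_pos j h0
    have h3 : x.1.f (m * (j / m) + ((j % m).toNat : ℕ)) = 0 :=
      congrArg (fun z : Fin m → Lamp k => (z ⟨(j % m).toNat, by omega⟩).f (j / m)) h
    rwa [Int.toNat_of_nonneg h1, Int.mul_ediv_add_emod] at h3
  · have h3 : x.1.e / m = 0 := congrArg (fun z : Fin m → Lamp k => (z ⟨0, hm⟩).e) h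
    rw [← Int.mul_ediv_cancel' x.2, h3, mul_zero]
    rfl

theorem exists_emb (S : Finset (Lamp k)) : ∃ (X : Type) (_ : Finite X) (_ : Nonempty X)
    (J : Lamp k →* WrG (Lamp k) X), Injective J ∧
    ∀ g ∈ S, ∀ x, ∃ j c, ((J g).b x).f = Finsupp.single j c := by
  classical
  obtain ⟨R, hR⟩ : ∃ R : ℕ, ∀ g ∈ S, ∀ j, g.f j ≠ 0 → |j| ≤ R := by
    refine ⟨(S.biUnion fun g => g.f.support).sup Int.natAbs, fun g hg j hj => ?_⟩
    rw [Int.abs_eq_natAbs, Nat.cast_le]
    exact Finset.le_sup (f := Int.natAbs)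
      (Finset.mem_biUnion.2 ⟨g, hg, Finsupp.mem_support_iff.2 hj⟩)
  obtain ⟨m, hm⟩ : ∃ m, m = 2 * R + 1 := ⟨_, rfl⟩
  have h0 : 0 < m := by omega
  have : NeZero m := ⟨h0.ne'⟩
  let σ : Lamp k →* Equiv.Perm (ZMod m) :=
    MonoidHom.mk' (fun g => Equiv.addLeft (g.e : ZMod m)) fun x y => Equiv.ext fun z => by
      simp [mul_e]
  let s : ZMod m → Lamp k := fun x => ⟨0, x.val⟩
  have h : ∀ g x, (s x)⁻¹ * g * s ((σ g)⁻¹ x) ∈ sub k m := fun g x => by
    refine (ZMod.intCast_zmod_eq_zero_iff_dvd _ m).1 ?_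
    simp [mul_e, inv_e, s, σ]
  refine ⟨ZMod m × Fin m, inferInstance, inferInstance, WrG.ind _ σ s h (spl m h0),
    (injective_iff_map_eq_one _).2 fun g hg => ?_, fun g hg x => ?_⟩
  · obtain ⟨h1, h2⟩ := WrG.ind_ker hg 0
    have h3 : (s 0)⁻¹ * g * s 0 = 1 := congrArg Subtype.val (spl_inj m h0 _ h2)
    rwa [mul_assoc, inv_mul_eq_one, right_eq_mul] at h3
  refine Finsupp.card_support_le_one'.1 (Finset.card_le_one.2 fun a ha b hb => ?_)
  have e : ∀ j, (((WrG.ind _ σ s h (spl m h0)) g).b x).f j = g.f (m * j + x.2 + x.1.val) := by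
    intro j
    change ((s x.1)⁻¹ * g * s _).f (m * j + x.2) = _
    simp [mul_f, inv_f, inv_e, s]
  rw [Finsupp.mem_support_iff, e] at ha hb
  have h1 := abs_le.1 (hR g hg _ ha)
  have h2 := abs_le.1 (hR g hg _ hb)
  have h3 : (m : ℤ) = 2 * R + 1 := by exact_mod_cast hm
  rcases lt_trichotomy a b with h4 | h4 | h4
  · nlinarith
  · exact h4
  · nlinarith

end Lamp

theorem fj_lamp {k : Type} [AddCommGroup k] (χ : Multiplicative k →* ℂ) (hi : Injective χ)
    (hχ : ∀ c, χ c ≠ -2) (hC : {c : Multiplicative k | IsOfFinOrder c}.Finite) (Y : Type)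
    [Finite Y] : FJ (WrG (Lamp k) Y) := by
  classical
  obtain ⟨f, hf⟩ := exists_rep χ hi hχ
  have := Fintype.ofFinite Y
  refine FJ.colim fun S => ?_
  obtain ⟨X, _, _, J, hJ, hS⟩ := Lamp.exists_emb ((S ×ˢ Finset.univ).image fun p => p.1.b p.2)
  refine ⟨_, _, inferInstance, inferInstance, (WrG.assoc _ X Y).comp (WrG.map J Y),
    WrG.map (Lamp.cov k) (Y × X), fun x => ⟨fun y => Lamp.sec (x.b y), x.σ⟩,
    {x | ∀ y, ∃ j c, (x.b y).f = Finsupp.single j c}, WrG.assoc_inj.comp (WrG.map_inj hJ),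
    fun g hg y => hS (g.b y.1) (Finset.mem_image.2 ⟨(g, y.1), by simp [hg], rfl⟩) y.2,
    fun x hx => WrG.ext (funext fun y => Lamp.cov_sec (hx y)) rfl,
    fun x hx y hy hxy => WrG.ext (funext fun i => Lamp.sec_mul (hx i) (hy _) (hxy i)) rfl,
    fun z hz hz' => ?_, fj_wrG f Coprod.fst hC hf _⟩
  have h1 : z.σ = 1 := congrArg (fun w : WrG (Lamp k) (Y × X) => w.σ) hz
  refine WrG.ext (funext fun y => (hf _ ?_).2
    (Lamp.cov_fst _ (congrArg (fun w : WrG (Lamp k) (Y × X) => w.b y) hz))) h1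
  have h2 : IsOfFinOrder (⟨z, h1⟩ : (WrG.perm _ (Y × X)).ker) :=
    (Subgroup.subtype_injective _).isOfFinOrder_iff.1 hz'
  obtain ⟨m, hm, h3⟩ := isOfFinOrder_iff_pow_eq_one.1 ((f.comp (WrG.co y)).isOfFinOrder h2)
  refine ⟨m, hm, ?_⟩
  rw [← Units.val_pow_eq_pow_val, show f (z.b y) ^ m = 1 from h3, Units.val_one, sub_self]
  exact IsNilpotent.zero

end Pool.Agent.MP_f7db47_al.VD
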