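import Pool.Agent.MP_f7db47_al.VD.Lin
import Pool.Agent.MP_f7db47_al.VD.Lam
import Pool.Agent.MP_f7db47_al.VD.Emb
import Pool.Agent.MP_f7db47_al.VC.SolE

/-!
Extensions with abelian kernel.
-/

namespace Pool.Agent.MP_f7db47_al.VD

open GN GF VC Function

variable {Γ Γ' : Type} [Group Γ] [Group Γ']

theorem fj_lampQ (Y : Type) [Finite Y] : FJ (WrG (Lamp ℚ) Y) := by
  refine fj_lamp ⟨⟨fun q => (Real.exp (q.toAdd : ℚ) : ℂ), by simp⟩, fun a b => by
    simp [Complex.exp_add]⟩ (fun a b e => ?_) (fun c e => ?_)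
    ((Set.finite_singleton 1).subset fun c hc => by_contra fun e =>
      isMulTorsionFree_iff_not_isOfFinOrder.1 inferInstance e hc) Y
  · exact Multiplicative.toAdd.injective
      (Rat.cast_injective (Real.exp_injective (Complex.ofReal_injective e)))
  · have h : Real.exp (c.toAdd : ℚ) = -2 := Complex.ofReal_injective (e.trans (by simp))
    linarith [Real.exp_pos (c.toAdd : ℚ)]

theorem fj_lampP (π : ℕ) [Fact π.Prime] (Y : Type) [Finite Y] : FJ (WrG (Lamp (ZMod π)) Y) := by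
  refine fj_lamp ZMod.stdAddChar.toMonoidHom
    (ZMod.injective_stdAddChar.comp Multiplicative.toAdd.injective) (fun c e => ?_)
    (Set.toFinite _) Y
  have h := congrArg norm e
  rw [AddChar.toMonoidHom_apply, ZMod.stdAddChar_apply, Circle.norm_coe] at h
  norm_num at h

theorem fj_triv (p : Γ →* Γ') (φ : Γ' →* MZ) (hφ : Finite φ.ker)
    (hc : ∀ a ∈ p.ker, ∀ b ∈ p.ker, a * b = b * a) (h : ∀ g, φ.comp p g = 1) : FJ Γ := by
  refine fj_vab p.ker ⟨?_⟩ hc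
  have h1 := ker_idx p φ hφ
  rwa [show (φ.comp p).ker = ⊤ from eq_top_iff.2 fun g _ => h g, Subgroup.relIndex_top_right] at h1

theorem ker_le (p : Γ →* Γ') (φ : Γ' →* MZ) : p.ker ≤ (φ.comp p).ker := fun a ha => by
  change φ (p a) = 1
  rw [show p a = 1 from ha, map_one]

theorem fj_lin [Group.FG Γ] {U : Type} [AddCommGroup U] [Module ℚ U] (D : Lin Γ U) : FJ Γ := by
  by_cases h0 : ∀ g, D.ψ g = 1
  · exact FJP.sub ((MonoidHom.id Γ).codRestrict D.ψ.ker h0)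
      (fun _ _ e => congrArg Subtype.val e) (lin_ker D)
  obtain ⟨t, ht⟩ := not_forall.1 h0
  obtain ⟨Y, _, p, V, _, hp⟩ := exists_lamp D.normal D.le D.idx ht
    (LinearEquiv.automorphismGroup.toLinearMapMonoidHom.comp D.L) D.e D.add D.conj
  refine FJP.ext p (fj_lampQ Y) fun B ⟨φ, hφ⟩ => ?_
  have hk : ∀ a ∈ (p.subgroupComap B).ker, a.1 ∈ p.ker := fun a ha => congrArg Subtype.val ha
  let D' : Lin (B.comap p) U :=
    ⟨φ.comp (p.subgroupComap B), (p.subgroupComap B).ker, D.L.comp (Subgroup.subtype _),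
      fun a => D.e a, inferInstance, ker_le _ φ, ker_idx _ φ hφ,
      fun a ha b hb => D.add _ (hp _ (hk a ha)).1 _ (hp _ (hk b hb)).1,
      fun a ha h => Subtype.ext (D.inj _ (hp _ (hk a ha)).1 h),
      fun γ a ha => D.conj _ _ (hp _ (hk a ha)).1, fun a ha => D.triv _ (hp _ (hk a ha)).1⟩
  let W := Submodule.span ℚ (D'.e '' D'.A)
  have hV : W ≤ V := Submodule.span_le.2 (by
    rintro _ ⟨a, ha, rfl⟩
    exact (hp _ (hk a ha)).2)
  have := Submodule.finiteDimensional_of_le hV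
  have e : (D'.AW W).comap (MonoidHom.id _) = D'.A :=
    le_antisymm (fun a ha => ha.1) fun a ha => ⟨ha, Submodule.subset_span ⟨a, ha, rfl⟩⟩
  obtain ⟨E⟩ := D'.restrict (MonoidHom.id _) injective_id W (fun γ u hu => by
    refine (Submodule.map_span_le (D'.L γ).toLinearMap _ W).2 ?_ (Submodule.mem_map_of_mem hu)
    rintro _ ⟨a, ha, rfl⟩
    exact Submodule.subset_span ⟨_, D'.normal.conj_mem a ha γ, D'.conj γ a ha⟩) D'.ψ
    (e ▸ D'.le) (e ▸ D'.idx)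
  exact fj_lin_fin _ W E

theorem fj_tf (p : Γ →* Γ') (h : IsVC Γ') (hc : ∀ a ∈ p.ker, ∀ b ∈ p.ker, a * b = b * a)
    (ht : ∀ a ∈ p.ker, IsOfFinOrder a → a = 1) : FJ Γ := by
  obtain ⟨φ, hφ⟩ := h
  refine FJP.loc fun K hK => ?_
  have := (Group.fg_iff_subgroup_fg K).2 hK
  obtain ⟨U, _, _, ⟨D⟩⟩ := exists_lin (φ.comp (p.comp K.subtype)) (p.comp K.subtype).ker
    inferInstance (ker_le _ φ) (ker_idx _ φ hφ) (fun a ha b hb => Subtype.ext (hc _ ha _ hb))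
    fun a ha h => Subtype.ext (ht _ ha (K.subtype.isOfFinOrder h))
  exact fj_lin D

theorem exists_lampP [Group.FG Γ] (π : ℕ) [Fact π.Prime] {U : Type} [AddCommGroup U]
    [Module (ZMod π) U] {ψ : Γ →* MZ} {A : Subgroup Γ} {t : Γ} (hA : A.Normal)
    (hle : A ≤ ψ.ker) (hi : A.relIndex ψ.ker ≠ 0) (ht : ψ t ≠ 1) (c : Γ → U →+ U)
    (c1 : ∀ x, c 1 x = x) (c2 : ∀ g h x, c (g * h) x = c g (c h x)) (e : Γ → U)
    (h1 : ∀ a ∈ A, ∀ b ∈ A, e (a * b) = e a + e b)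
    (h2 : ∀ γ, ∀ a ∈ A, e (γ * a * γ⁻¹) = c γ (e a)) :
    ∃ (Y : Type) (_ : Finite Y) (p : Γ →* WrG (Lamp (ZMod π)) Y) (V : Set U),
      Finite V ∧ ∀ g ∈ p.ker, g ∈ A ∧ e g ∈ V := by
  let L : Γ →* Module.End (ZMod π) U :=
    { toFun := fun g => (c g).toZModLinearMap π
      map_one' := LinearMap.ext c1
      map_mul' := fun g h => LinearMap.ext (c2 g h) }
  obtain ⟨Y, _, q, V, _, hq⟩ := exists_lamp (k := ZMod π) hA hle hi ht L e h1 h2
  exact ⟨Y, inferInstance, q, V, (Module.finite_of_finite (ZMod π) : Finite V), hq⟩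

theorem fj_elem_fg [Group.FG Γ] (π : ℕ) [Fact π.Prime] (p : Γ →* Γ') (h : IsVC Γ')
    (hc : ∀ a ∈ p.ker, ∀ b ∈ p.ker, a * b = b * a) (hπ : ∀ a ∈ p.ker, a ^ π = 1) : FJ Γ := by
  classical
  obtain ⟨φ, hφ⟩ := h
  by_cases h0 : ∀ g, φ.comp p g = 1
  · exact fj_triv p φ hφ hc h0
  obtain ⟨t, ht⟩ := not_forall.1 h0
  let _ : CommGroup p.ker :=
    { (inferInstance : Group p.ker) with mul_comm := fun a b => Subtype.ext (hc a a.2 b b.2) }
  let e : Γ → Additive p.ker := fun g => if h : g ∈ p.ker then Additive.ofMul ⟨g, h⟩ else 0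
  have he (a : Γ) (ha : a ∈ p.ker) : e a = Additive.ofMul ⟨a, ha⟩ := dif_pos ha
  let _ : Module (ZMod π) (Additive p.ker) := AddCommGroup.zmodModule fun x =>
    congrArg Additive.ofMul (Subtype.ext (hπ _ x.toMul.2) : x.toMul ^ π = 1)
  obtain ⟨Y, _, q, V, _, hq⟩ := exists_lampP π (U := Additive p.ker)
    p.normal_ker (ker_le p φ) (ker_idx p φ hφ) ht
    (fun g => MonoidHom.toAdditive (MulAut.conjNormal (H := p.ker) g).toMonoidHom)
    (fun a => by simp) (fun g h a => by rw [map_mul]; rfl) e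
    (fun a ha b hb => by rw [he a ha, he b hb, he _ (mul_mem ha hb)]; rfl)
    fun γ a ha => by rw [he a ha, he _ (p.normal_ker.conj_mem a ha γ)]; rfl
  refine FJP.ext q (fj_lampP π Y) fun B ⟨χ, hχ⟩ => FJP.of_vc ⟨χ.comp (q.subgroupComap B), ?_⟩
  have hk : ∀ a ∈ (q.subgroupComap B).ker, a.1 ∈ q.ker := fun a ha => congrArg Subtype.val ha
  have : Finite ((q.subgroupComap B).ker.subgroupOf (χ.comp (q.subgroupComap B)).ker) := by
    refine Finite.of_injective (fun a => (⟨_, (hq _ (hk _ a.2)).2⟩ : V)) fun a b h => ?_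
    have h1 : e a.1.1.1 = e b.1.1.1 := congrArg Subtype.val h
    rw [he a.1.1.1 (hq _ (hk _ a.2)).1, he b.1.1.1 (hq _ (hk _ b.2)).1] at h1
    exact Subtype.ext (Subtype.ext (Subtype.ext (congrArg (fun x => x.toMul.1) h1)))
  have : Finite (_ ⧸ (q.subgroupComap B).ker.subgroupOf (χ.comp (q.subgroupComap B)).ker) :=
    Nat.finite_of_card_ne_zero (ker_idx _ χ hχ)
  exact Finite.of_subgroup_quotient ((q.subgroupComap B).ker.subgroupOf _)

theorem fj_step (p : Γ →* Γ') (hc : ∀ a ∈ p.ker, ∀ b ∈ p.ker, a * b = b * a) (N : Subgroup Γ)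
    [N.Normal] (hN : N ≤ p.ker)
    (h1 : (∀ a ∈ (QuotientGroup.lift N p hN).ker, ∀ b ∈ (QuotientGroup.lift N p hN).ker,
      a * b = b * a) → FJ (Γ ⧸ N))
    (h2 : ∀ (K : Subgroup Γ) (B : Type) [Group B] (q : K →* B), IsVC B → (∀ a ∈ q.ker, a.1 ∈ N) →
      (∀ a ∈ q.ker, ∀ b ∈ q.ker, a * b = b * a) → FJ K) : FJ Γ := by
  refine FJP.ext (QuotientGroup.mk' N) (h1 fun a ha b hb => ?_) fun B hB => ?_
  · obtain ⟨a, rfl⟩ := QuotientGroup.mk'_surjective N a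
    obtain ⟨b, rfl⟩ := QuotientGroup.mk'_surjective N b
    rw [← map_mul, ← map_mul, hc a ha b hb]
  have hk : ∀ a ∈ ((QuotientGroup.mk' N).subgroupComap B).ker, a.1 ∈ N := fun a ha =>
    (QuotientGroup.eq_one_iff _).1 (congrArg Subtype.val ha)
  exact h2 _ B _ hB hk fun a ha b hb => Subtype.ext (hc _ (hN (hk a ha)) _ (hN (hk b hb)))

theorem fj_exp (n : ℕ) : n ≠ 0 → ∀ (Γ Γ' : Type) [Group Γ] [Group Γ'] (p : Γ →* Γ'), IsVC Γ' →
    (∀ a ∈ p.ker, ∀ b ∈ p.ker, a * b = b * a) → (∀ a ∈ p.ker, a ^ n = 1) → FJ Γ := by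
  induction n using induction_on_primes with
  | zero => exact fun h => (h rfl).elim
  | one =>
    exact fun _ Γ Γ' _ _ p h _ hn => FJP.of_vc
      (h.sub p ((injective_iff_map_eq_one p).2 fun a ha => by simpa using hn a ha))
  | prime_mul π n hπ ih =>
    intro h0 Γ Γ' _ _ p h hc hn
    let N : Subgroup Γ :=
      { carrier := {a | a ∈ p.ker ∧ a ^ π = 1}
        one_mem' := ⟨one_mem _, one_pow _⟩
        mul_mem' := fun {a b} ha hb => ⟨mul_mem ha.1 hb.1, by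
          rw [Commute.mul_pow (hc a ha.1 b hb.1), ha.2, hb.2, mul_one]⟩
        inv_mem' := fun ha => ⟨inv_mem ha.1, by rw [inv_pow, ha.2, inv_one]⟩ }
    have hN : N.Normal := ⟨fun a ha g => ⟨p.normal_ker.conj_mem a ha.1 g, by
      rw [conj_pow, ha.2, mul_one, mul_inv_cancel]⟩⟩
    have : Fact π.Prime := ⟨hπ⟩
    refine fj_step p hc N (fun a ha => ha.1)
      (fun h1 => ih (right_ne_zero_of_mul h0) _ _ _ h h1 fun a ha => ?_)
      fun K B _ q hB h1 h2 => FJP.loc fun M hM => ?_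
    · obtain ⟨a, rfl⟩ := QuotientGroup.mk'_surjective N a
      rw [← map_pow]
      exact (QuotientGroup.eq_one_iff _).2
        ⟨pow_mem (show a ∈ p.ker from ha) n, by rw [← pow_mul, mul_comm, hn a ha]⟩
    · have := (Group.fg_iff_subgroup_fg M).2 hM
      exact fj_elem_fg π (q.comp M.subtype) hB (fun a ha b hb => Subtype.ext (h2 _ ha _ hb))
        fun a ha => Subtype.ext (Subtype.ext (h1 _ ha).2)

theorem fj_tors_fg [Group.FG Γ] (p : Γ →* Γ') (h : IsVC Γ')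
    (hc : ∀ a ∈ p.ker, ∀ b ∈ p.ker, a * b = b * a) (ht : ∀ a ∈ p.ker, IsOfFinOrder a) :
    FJ Γ := by
  obtain ⟨φ, hφ⟩ := h
  by_cases h0 : ∀ g, φ.comp p g = 1
  · exact fj_triv p φ hφ hc h0
  obtain ⟨t, h1⟩ := not_forall.1 h0
  obtain ⟨F, f1, f2, f3⟩ := exists_gens p.normal_ker (ker_le p φ) (ker_idx p φ hφ) h1
  let n := ∏ a ∈ f1.toFinset, orderOf a
  refine fj_exp n (Finset.prod_ne_zero_iff.2 fun a ha =>
    (ht a (f2 (f1.mem_toFinset.1 ha))).orderOf_pos.ne') _ _ p ⟨φ, hφ⟩ hc fun a ha => ?_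
  exact (f3
    { carrier := {a | a ∈ p.ker ∧ a ^ n = 1}
      one_mem' := ⟨one_mem _, one_pow _⟩
      mul_mem' := fun {a b} ha hb => ⟨mul_mem ha.1 hb.1, by
        rw [Commute.mul_pow (hc a ha.1 b hb.1), ha.2, hb.2, mul_one]⟩
      inv_mem' := fun ha => ⟨inv_mem ha.1, by rw [inv_pow, ha.2, inv_one]⟩ }
    (fun a ha => ha.1)
    (fun a ha => ⟨f2 ha, orderOf_dvd_iff_pow_eq_one.1
      (Finset.dvd_prod_of_mem _ (f1.mem_toFinset.2 ha))⟩)
    (fun m a ha => ⟨p.normal_ker.conj_mem a ha.1 _, by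
      rw [conj_pow, ha.2, mul_one, mul_inv_cancel]⟩) ha).2

theorem fj_abvc (p : Γ →* Γ') (h : IsVC Γ') (hc : ∀ a ∈ p.ker, ∀ b ∈ p.ker, a * b = b * a) :
    FJ Γ := by
  let N : Subgroup Γ :=
    { carrier := {a | a ∈ p.ker ∧ IsOfFinOrder a}
      one_mem' := ⟨one_mem _, IsOfFinOrder.one⟩
      mul_mem' := fun {a b} ha hb =>
        ⟨mul_mem ha.1 hb.1, Commute.isOfFinOrder_mul (hc a ha.1 b hb.1) ha.2 hb.2⟩
      inv_mem' := fun ha => ⟨inv_mem ha.1, ha.2.inv⟩ }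
  have hN : N.Normal := ⟨fun a ha g => ⟨p.normal_ker.conj_mem a ha.1 g,
    (MulAut.conj g).toMonoidHom.isOfFinOrder ha.2⟩⟩
  refine fj_step p hc N (fun a ha => ha.1) (fun h1 => fj_tf _ h h1 fun a ha h2 => ?_)
    fun K B _ q hB h1 h2 => FJP.loc fun M hM => ?_
  · obtain ⟨a, rfl⟩ := QuotientGroup.mk'_surjective N a
    obtain ⟨n, hn, e⟩ := isOfFinOrder_iff_pow_eq_one.1 h2
    rw [← map_pow] at e
    exact (QuotientGroup.eq_one_iff a).2
      ⟨ha, (((QuotientGroup.eq_one_iff _).1 e).2.of_pow hn.ne')⟩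
  · have := (Group.fg_iff_subgroup_fg M).2 hM
    exact fj_tors_fg (q.comp M.subtype) hB (fun a ha b hb => Subtype.ext (h2 _ ha _ hb))
      fun a ha => M.subtype_injective.isOfFinOrder_iff.1
        (K.subtype_injective.isOfFinOrder_iff.1 (h1 _ ha).2)

end Pool.Agent.MP_f7db47_al.VD
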