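import Pool.Agent.MP_f7db47_al.VC.VB

/-!
Theories without tame extensions: definitions.
-/

namespace Pool.Agent.MP_f7db47_al.VD

open GN GF VC

/-- A property of groups over `G₀` with the basic closure properties. -/
structure Thy0 (G₀ : Type) [Group G₀] where
  Q : ∀ (G : Type) [Group G], (G →* G₀) → Prop
  sub : ∀ {G H : Type} [Group G] [Group H] {i : H →* G₀} (f : G →* H), Function.Injective f →
    Q H i → Q G (i.comp f)
  loc : ∀ {G : Type} [Group G] {i : G →* G₀},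
    (∀ K : Subgroup G, K.FG → Q K (i.comp K.subtype)) → Q G i
  flow : ∀ {Γ G : Type} [Group Γ] [Group G] {i : G →* G₀} {Fam : Set (Subgroup Γ)},
    HasPack Γ Fam → ∀ f : G →* Γ, (∀ (B : Subgroup Γ) (φ : B →* MZ),
      (∀ g, φ g = 1 → IsOfFinOrder g) → Q (B.comap f) (i.comp (B.comap f).subtype)) →
    (∀ B ∈ Fam, Q (B.comap f) (i.comp (B.comap f).subtype)) → Q G i

/-- The further closure properties. -/
structure Full {G₀ : Type} [Group G₀] (T : Thy0 G₀) : Prop where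
  fh : T.Q PUnit.{1} 1 → ∀ (N : ℕ) (G : Type) [Group G] (i : G →* G₀),
    (∀ (r : ℕ) (S₀ : Finset G) (π : ℕ), π.Prime →
      FHD (fun K => T.Q K (i.comp K.subtype)) N r S₀ π) → T.Q G i
  gl : ∀ {G A : Type} [Group G] [CommRing A] {i : G →* G₀} {n : ℕ} (f : G →* GL (Fin n) A),
    (∀ (H : Subgroup G) (φ : H →* MZ), (∀ g : H, φ g = 1 → QU (f g).val) →
      T.Q H (i.comp H.subtype)) → T.Q G i
  prodZ : ∀ {G : Type} [Group G] {i : G →* G₀}, T.Q G i →
    T.Q (G × MZ) (i.comp (MonoidHom.fst G MZ))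
  colim : ∀ {G : Type} [Group G] {i : G →* G₀},
    (∀ S : Finset G, ∃ (G' : Type) (_ : Group G') (q : G' →* G) (s : G → G'),
      (∀ g ∈ S, q (s g) = g) ∧ (∀ g ∈ S, ∀ h ∈ S, g * h ∈ S → s (g * h) = s g * s h) ∧
      T.Q G' (i.comp q)) → T.Q G i

/-- A class of theories. -/
abbrev Cls : Type 1 := ∀ (G₀ : Type) [Group G₀], Thy0 G₀ → Prop

/-- The fibred reduction to finite-by-cyclic subgroups holds for `Γ`, for theories in `P`. -/
def FJP (P : Cls) (Γ : Type) [Group Γ] : Prop :=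
  ∀ (G₀ : Type) [Group G₀] (T : Thy0 G₀), P G₀ T →
    ∀ (G : Type) [Group G] (i : G →* G₀) (f : G →* Γ),
      (∀ B : Subgroup Γ, IsVC B → T.Q (B.comap f) (i.comp (B.comap f).subtype)) → T.Q G i

/-- The fibred reduction for full theories. -/
abbrev FJ (Γ : Type) [Group Γ] : Prop := FJP (fun _ _ T => Full T) Γ

/-- The wreath product of a group with a symmetric group. -/
@[ext] structure WrG (H Y : Type) where
  b : Y → H
  σ : Equiv.Perm Y

namespace WrG

variable {H Y : Type} [Group H]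

instance : Mul (WrG H Y) := ⟨fun x y => ⟨fun i => x.b i * y.b (x.σ⁻¹ i), x.σ * y.σ⟩⟩

instance : One (WrG H Y) := ⟨⟨1, 1⟩⟩

instance : Inv (WrG H Y) := ⟨fun x => ⟨fun i => (x.b (x.σ i))⁻¹, x.σ⁻¹⟩⟩

theorem mul_b (x y : WrG H Y) (i : Y) : (x * y).b i = x.b i * y.b (x.σ⁻¹ i) := rfl

theorem mul_σ (x y : WrG H Y) : (x * y).σ = x.σ * y.σ := rfl

theorem one_b (i : Y) : (1 : WrG H Y).b i = 1 := rfl

theorem one_σ : (1 : WrG H Y).σ = 1 := rfl

theorem inv_b (x : WrG H Y) (i : Y) : (x⁻¹).b i = (x.b (x.σ i))⁻¹ := rfl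

theorem inv_σ (x : WrG H Y) : (x⁻¹).σ = x.σ⁻¹ := rfl

instance : Group (WrG H Y) :=
  Group.ofLeftAxioms
    (fun x y z => WrG.ext (funext fun i => by simp [mul_b, mul_σ, mul_assoc]) (mul_assoc _ _ _))
    (fun x => WrG.ext (funext fun i => by simp [mul_b, one_b, one_σ]) (one_mul _))
    fun x => WrG.ext (funext fun i => by simp [mul_b, inv_b, inv_σ, one_b]) (inv_mul_cancel _)

end WrG

/-- The restricted wreath product of an abelian group with `ℤ`. -/
@[ext] structure Lamp (k : Type) [Zero k] where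
  f : ℤ →₀ k
  e : ℤ

namespace Lamp

variable {k : Type} [AddCommGroup k]

/-- The shift. -/
noncomputable def sh (e : ℤ) (f : ℤ →₀ k) : ℤ →₀ k := f.equivMapDomain (Equiv.addRight e)

theorem sh_apply (e : ℤ) (f : ℤ →₀ k) (j : ℤ) : sh e f j = f (j - e) := by
  simp [sh, sub_eq_add_neg]

noncomputable instance : Mul (Lamp k) := ⟨fun x y => ⟨x.f + sh x.e y.f, x.e + y.e⟩⟩

instance : One (Lamp k) := ⟨⟨0, 0⟩⟩

noncomputable instance : Inv (Lamp k) := ⟨fun x => ⟨-sh (-x.e) x.f, -x.e⟩⟩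

theorem mul_f (x y : Lamp k) (j : ℤ) : (x * y).f j = x.f j + y.f (j - x.e) := by
  rw [← sh_apply]
  rfl

theorem mul_e (x y : Lamp k) : (x * y).e = x.e + y.e := rfl

theorem one_f (j : ℤ) : (1 : Lamp k).f j = 0 := rfl

theorem one_e : (1 : Lamp k).e = 0 := rfl

theorem inv_f (x : Lamp k) (j : ℤ) : (x⁻¹).f j = -x.f (j + x.e) := by
  rw [← sub_neg_eq_add, ← sh_apply]
  rfl

theorem inv_e (x : Lamp k) : (x⁻¹).e = -x.e := rfl

noncomputable instance : Group (Lamp k) :=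
  Group.ofLeftAxioms
    (fun x y z => Lamp.ext (Finsupp.ext fun j => by simp [mul_f, mul_e, add_assoc, sub_sub])
      (add_assoc _ _ _))
    (fun x => Lamp.ext (Finsupp.ext fun j => by simp [mul_f, one_f, one_e]) (zero_add _))
    fun x => Lamp.ext (Finsupp.ext fun j => by simp [mul_f, inv_f, inv_e, one_f])
      (neg_add_cancel _)

end Lamp

end Pool.Agent.MP_f7db47_al.VD
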