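import Pool.Agent.MP_f7db47_al.VD.D0
import Pool.Agent.MP_f7db47_al.VC.FJc

/-!
Closure properties.
-/

namespace Pool.Agent.MP_f7db47_al.VD

open GN GF VC Function

section

variable {G H G₀ : Type} [Group G] [Group H] [Group G₀] (T : Thy0 G₀)

theorem Thy0.sub' {i : G →* G₀} {i' : H →* G₀} (f : G →* H) (hf : Function.Injective f)
    (e : ∀ g, i g = i' (f g)) (h : T.Q H i') : T.Q G i := by
  rw [show i = i'.comp f from MonoidHom.ext e]
  exact T.sub f hf h

theorem Thy0.le {i : G →* G₀} {K K' : Subgroup G} (h : K ≤ K')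
    (h' : T.Q K' (i.comp K'.subtype)) : T.Q K (i.comp K.subtype) :=
  T.sub' (Subgroup.inclusion h) (Subgroup.inclusion_injective h) (fun _ => rfl) h'

theorem Thy0.top {i : G →* G₀} {K : Subgroup G} (h : ∀ g, g ∈ K)
    (h' : T.Q K (i.comp K.subtype)) : T.Q G i :=
  T.sub' ((MonoidHom.id G).codRestrict K h) (fun _ _ e => congrArg Subtype.val e)
    (fun _ => rfl) h'

end

variable {Γ Γ' : Type} [Group Γ] [Group Γ'] {P : Cls}

theorem FJP.comap {B : Subgroup Γ} (hB : FJP P B) {G₀ : Type} [Group G₀] (T : Thy0 G₀)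
    (hT : P G₀ T) {G : Type} [Group G] (i : G →* G₀) (f : G →* Γ)
    (h : ∀ C : Subgroup Γ, IsVC C → T.Q (C.comap f) (i.comp (C.comap f).subtype)) :
    T.Q (B.comap f) (i.comp (B.comap f).subtype) := by
  refine hB G₀ T hT _ _ (f.subgroupComap B) fun C hC => ?_
  let e := (C.equivMapOfInjective B.subtype B.subtype_injective).symm
  exact T.sub' (((B.comap f).subtype.comp (C.comap (f.subgroupComap B)).subtype).codRestrict
    ((C.map B.subtype).comap f) fun x => ⟨f.subgroupComap B x.1, x.2, rfl⟩)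
    (fun x y e => Subtype.ext (Subtype.ext (Subtype.ext_iff.1 e :))) (fun _ => rfl)
    (h _ (hC.sub e.toMonoidHom e.injective))

theorem FJP.sub (j : Γ' →* Γ) (hj : Injective j) (h : FJP P Γ) : FJP P Γ' := by
  intro G₀ _ T hT G _ i f H
  exact h G₀ T hT G i (j.comp f) fun B hB => H (B.comap j) (hB.sub (j.subgroupComap B)
    fun x y e => Subtype.ext (hj (congrArg Subtype.val e)))

theorem FJP.le {K K' : Subgroup Γ} (h : K ≤ K') (h' : FJP P K') : FJP P K :=
  h'.sub (Subgroup.inclusion h) (Subgroup.inclusion_injective h)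

theorem FJP.of_vc (h : IsVC Γ) : FJP P Γ := by
  intro G₀ _ T _ G _ i f H
  exact T.top (K := (⊤ : Subgroup Γ).comap f) (fun _ => trivial)
    (H ⊤ (h.sub _ (Subgroup.subtype_injective _)))

theorem FJP.ext (p : Γ →* Γ') (h : FJP P Γ')
    (h' : ∀ B : Subgroup Γ', IsVC B → FJP P (B.comap p)) : FJP P Γ := by
  intro G₀ _ T hT G _ i f H
  exact h G₀ T hT G i (p.comp f) fun B hB => (h' B hB).comap T hT i f H

theorem FJP.loc (h : ∀ K : Subgroup Γ, K.FG → FJP P K) : FJP P Γ := by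
  intro G₀ _ T hT G _ i f H
  exact T.loc fun K hK => T.le (Subgroup.le_comap_map f K) ((h _ (FJc_fg hK f)).comap T hT i f H)

theorem FJP.flow {Fam : Set (Subgroup Γ)} (hP : HasPack Γ Fam)
    (hc : ∀ (B : Subgroup Γ) (φ : B →* MZ), (∀ g, φ g = 1 → IsOfFinOrder g) → FJP P B)
    (hF : ∀ B ∈ Fam, FJP P B) : FJP P Γ := by
  intro G₀ _ T hT G _ i f H
  exact T.flow hP f (fun B φ hφ => (hc B φ hφ).comap T hT i f H)
    fun B hB => (hF B hB).comap T hT i f H

theorem FJ.fh (N : ℕ)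
    (h : ∀ (r : ℕ) (S₀ : Finset Γ) (π : ℕ), π.Prime → FHD (fun K => FJ K) N r S₀ π) : FJ Γ := by
  intro G₀ _ T hT G _ i f H
  classical
  exact hT.fh (T.sub' (1 : PUnit.{1} →* (⊥ : Subgroup Γ).comap f)
    (fun _ _ _ => rfl) (fun _ => (map_one _).symm) (H ⊥ IsVC.of_finite)) N G i
    fun r S₀ π hπ => (h r (S₀.image f) π hπ).pull f
      (fun _ hg => Finset.mem_image_of_mem f hg) fun _ hK => hK.comap T hT i f H

theorem FJ.gl {A : Type} [CommRing A] {n : ℕ} (f : Γ →* GL (Fin n) A)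
    (h : ∀ (H : Subgroup Γ) (φ : H →* MZ), (∀ g : H, φ g = 1 → QU (f g).val) → FJ H) :
    FJ Γ := by
  intro G₀ _ T hT G _ i p H
  refine hT.gl (f.comp p) fun K φ hφ =>
    T.le (Subgroup.le_comap_map p K) (FJP.comap ?_ T hT i p H)
  by_cases hk : (p.subgroupMap K).ker ≤ φ.ker
  · have hs := p.subgroupMap_surjective K
    refine h _ ((p.subgroupMap K).liftOfSurjective hs ⟨φ, hk⟩) fun g hg => ?_
    obtain ⟨x, rfl⟩ := hs g
    rw [MonoidHom.liftOfRightInverse_comp_apply] at hg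
    exact hφ x hg
  · obtain ⟨y, hy, hy'⟩ := SetLike.not_le_iff_exists.1 hk
    have e : p y = 1 := congrArg Subtype.val hy
    refine h _ 1 ?_
    rintro ⟨_, x, hx, rfl⟩ -
    refine FJc_qu (a := (φ y).toAdd) hy' ?_
    have := hφ ((⟨x, hx⟩ : K) ^ (φ y).toAdd * y ^ (-(φ ⟨x, hx⟩).toAdd)) (by
      apply Multiplicative.toAdd.injective
      simp [mul_comm])
    simpa [e] using this

theorem vc_map (q : Γ →* Γ') (B : Subgroup Γ) (h : IsVC B) : IsVC (B.map q) := by
  obtain ⟨φ, hφ⟩ := h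
  have hs := q.subgroupMap_surjective B
  by_cases hk : (q.subgroupMap B).ker ≤ φ.ker
  · refine ⟨(q.subgroupMap B).liftOfSurjective hs ⟨φ, hk⟩, ?_⟩
    refine Finite.of_surjective (α := φ.ker) (fun x => ⟨q.subgroupMap B x.1, ?_⟩) ?_
    · rw [MonoidHom.mem_ker, MonoidHom.liftOfRightInverse_comp_apply]
      exact x.2
    · rintro ⟨y, hy⟩
      obtain ⟨x, rfl⟩ := hs y
      rw [MonoidHom.mem_ker, MonoidHom.liftOfRightInverse_comp_apply] at hy
      exact ⟨⟨x, hy⟩, rfl⟩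
  · obtain ⟨y, hy, hy'⟩ := SetLike.not_le_iff_exists.1 hk
    have h0 : (φ y).toAdd ≠ 0 := hy'
    have : Finite (B.map q) := by
      have hb := (vc_ball φ hφ (|(φ y).toAdd| : ℤ)).to_subtype
      refine Finite.of_surjective (α := {g | |dg φ g| ≤ ((|(φ y).toAdd| : ℤ) : ℝ)})
        (fun x => q.subgroupMap B x.1) fun z => ?_
      obtain ⟨x, rfl⟩ := hs z
      refine ⟨⟨x * y ^ (-((φ x).toAdd / (φ y).toAdd)), ?_⟩, ?_⟩
      · have e : (φ (x * y ^ (-((φ x).toAdd / (φ y).toAdd)))).toAdd =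
            (φ x).toAdd % (φ y).toAdd := by
          rw [map_mul, map_zpow, toAdd_mul, toAdd_zpow, Int.emod_def, smul_eq_mul]
          ring
        change |(((φ _).toAdd : ℤ) : ℝ)| ≤ _
        rw [e, ← Int.cast_abs, Int.cast_le, abs_of_nonneg (Int.emod_nonneg _ h0)]
        exact (Int.emod_lt_abs _ h0).le
      · change q.subgroupMap B (x * y ^ _) = _
        rw [map_mul, map_zpow, show q.subgroupMap B y = 1 from hy, one_zpow, mul_one]
    exact IsVC.of_finite

theorem FJ.colim (h : ∀ S : Finset Γ, ∃ (Δ Δ' : Type) (_ : Group Δ) (_ : Group Δ') (J : Γ →* Δ)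
      (q : Δ' →* Δ) (s : Δ → Δ') (M : Set Δ), Injective J ∧ (∀ g ∈ S, J g ∈ M) ∧
      (∀ x ∈ M, q (s x) = x) ∧ (∀ x ∈ M, ∀ y ∈ M, x * y ∈ M → s (x * y) = s x * s y) ∧
      (∀ z, q z = 1 → IsOfFinOrder z → z = 1) ∧ FJ Δ') : FJ Γ := by
  intro G₀ _ T hT G _ i f H
  classical
  refine hT.colim fun S => ?_
  obtain ⟨Δ, Δ', _, _, J, q, s, M, hJ, hS, h1, h2, h3, h4⟩ := h (S.image f)
  have hM : ∀ g ∈ S, J (f g) ∈ M := fun g hg => hS _ (Finset.mem_image_of_mem f hg)
  let G' : Subgroup (G × Δ') :=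
    ((J.comp f).comp (MonoidHom.fst _ _)).eqLocus (q.comp (MonoidHom.snd _ _))
  refine ⟨G', inferInstance, (MonoidHom.fst _ _).comp G'.subtype,
    fun g => if hg : g ∈ S then ⟨(g, s (J (f g))), (h1 _ (hM g hg)).symm⟩ else 1,
    fun g hg => by simp only [dif_pos hg]; rfl, fun g hg g' hg' hm => ?_, ?_⟩
  · simp only [dif_pos hg, dif_pos hg', dif_pos hm]
    refine Subtype.ext (Prod.ext rfl ?_)
    change s (J (f (g * g'))) = s (J (f g)) * s (J (f g'))
    have h5 := hM _ hm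
    rw [map_mul, map_mul] at h5 ⊢
    exact h2 _ (hM g hg) _ (hM g' hg') h5
  refine h4 G₀ T hT G' _ ((MonoidHom.snd _ _).comp G'.subtype) fun B hB => ?_
  have hC : IsVC ((B.map q).comap J) := (vc_map q B hB).sub (J.subgroupComap _)
    fun x y e => Subtype.ext (hJ (congrArg Subtype.val e))
  obtain ⟨φ, hφ⟩ := hB
  let p := ((MonoidHom.snd _ _).comp G'.subtype).subgroupComap B
  refine T.sub' (MonoidHom.prod ((((MonoidHom.fst _ _).comp G'.subtype).comp
    (Subgroup.subtype _)).codRestrict (((B.map q).comap J).comap f)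
      fun x => ⟨x.1.1.2, x.2, x.1.2.symm⟩) (φ.comp p))
    ((injective_iff_map_eq_one _).2 fun x hx => ?_) (fun _ => rfl) (hT.prodZ (H _ hC))
  have e1 : x.1.1.1 = 1 := congrArg (fun z => z.1.1) hx
  have e2 : φ (p x) = 1 := congrArg Prod.snd hx
  have e3 : q x.1.1.2 = 1 := by
    have h5 : J (f x.1.1.1) = q x.1.1.2 := x.1.2
    rw [← h5, e1, map_one, map_one]
  have e4 : IsOfFinOrder (⟨p x, e2⟩ : φ.ker) := isOfFinOrder_of_finite _
  exact Subtype.ext (Subtype.ext (Prod.ext e1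
    (h3 _ e3 ((B.subtype.comp φ.ker.subtype).isOfFinOrder e4))))

end Pool.Agent.MP_f7db47_al.VD
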