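import Pool.Agent.MP_f7db47_al.VD.Vab
import Pool.Agent.MP_f7db47_al.VC.Lin3

/-!
Extensions with torsion free abelian kernel of finite rank.
-/

namespace Pool.Agent.MP_f7db47_al.VD

open GN GF VC

section

open Matrix

theorem Aff_ker {V ι : Type} [Group V] [Fintype ι] [DecidableEq ι] {Z : Subring ℚ}
    (L : V →* GLZ Z ι) (ψ : V →* MZ) (hψ : Finite ψ.ker) : FJ (ψ.comp (Aff.lin L)).ker := by
  let φ : (ψ.comp (Aff.lin L)).ker →* ψ.ker :=
    ((Aff.lin L).comp (ψ.comp (Aff.lin L)).ker.subtype).codRestrict ψ.ker fun x => x.2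
  refine fj_vab φ.ker inferInstance fun a ha b hb => Subtype.ext ?_
  have ha' : a.1.g = 1 := congrArg Subtype.val ha
  have hb' : b.1.g = 1 := congrArg Subtype.val hb
  refine Aff.ext ?_ ?_
  · change (a.1 * b.1).a = (b.1 * a.1).a
    rw [Aff.mul_a, Aff.mul_a, ha', hb', Aff.mulVec_one, Aff.mulVec_one, add_comm]
  · change (a.1 * b.1).g = (b.1 * a.1).g
    rw [Aff.mul_g, Aff.mul_g, ha', hb']

theorem fj_aff {q : ℕ} (hq : 0 < q) {V ι : Type} [Group V] [Fintype ι] [DecidableEq ι]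
    (L : V →* GLZ (ZQ q) ι) (ψ : V →* MZ) (hψ : Finite ψ.ker)
    (h : ∀ g, ψ g ≠ 1 → ((L g).1.val - 1).det ≠ 0) : FJ (Aff L) := by
  classical
  obtain ⟨N, hN⟩ := aff_deep hq L ψ hψ
  refine FJ.fh (max N 2) fun r S₀ π hπ => ?_
  obtain ⟨l₀, hl₀, hcirc⟩ := circle (ψ.comp (Aff.lin L)) r S₀
  obtain ⟨c, hc⟩ := gl_card ι π hπ
  obtain ⟨T, hT, horb⟩ := orb_abs ψ hψ π hπ c l₀
  obtain ⟨p₁, hp₁⟩ := red_ne (T.image fun g => ((L g).1.val - 1).det) (by
    intro a ha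
    obtain ⟨g, hg, rfl⟩ := Finset.mem_image.1 ha
    exact h g (hT g hg))
  obtain ⟨p₀, hp₀⟩ := hN r S₀
  obtain ⟨p, hp, hle, hcard⟩ := hc (max (max p₀ p₁) (q + 1))
  have : Fact p.Prime := ⟨hp⟩
  have hpq : ¬ p ∣ q := fun hd => by
    have := Nat.le_of_dvd hq hd
    omega
  obtain ⟨f, -, hf⟩ := exists_redL L hpq
  obtain ⟨σ₀, hσ₀⟩ := exists_act L hpq
  obtain ⟨s, l, hl, hbad⟩ := horb (GL ι (ZMod p)) f (fun x => (x.val - 1).det = 0) hcard
    Aff_bad fun g hg => by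
      rw [hf]
      exact hp₁ p (by omega) _ (Finset.mem_image_of_mem _ hg)
  choose σ hσ hσ' using fun i => hcirc (l i) (hl i).1
  refine ⟨s, ι → ZMod p, inferInstance, σ₀, fun i => ZMod (l i), fun i => ?_, σ,
    (hp₀ p (by omega) hpq σ₀ hσ₀).mono (fun K hK => FJP.of_vc hK) (le_max_left _ _),
    fun i => (hσ' i).mono (fun K hK => FJP.le hK (Aff_ker L ψ hψ)) (le_max_right _ _),
    fun i => ?_, fun g => ?_⟩
  · have : NeZero (l i) := ⟨by have := (hl i).1; omega⟩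
    infer_instance
  · rw [Nat.card_zmod]
    exact (hl i).2
  · by_cases hb : ((f g.g).val - 1).det = 0
    · obtain ⟨i, hi⟩ := hbad g.g hb
      exact Or.inr ⟨i, hσ i g hi⟩
    · rw [hf] at hb
      exact Or.inl (act_fix L hpq hσ₀ g hb)

end

open Function

theorem lin_ker {Γ U : Type} [Group Γ] [AddCommGroup U] [Module ℚ U] (D : Lin Γ U) :
    FJ D.ψ.ker :=
  fj_vab (D.A.subgroupOf D.ψ.ker) ⟨D.idx⟩ fun _ ha _ hb => Subtype.ext (D.comm ha hb)

theorem lin_hyp {Γ U : Type} [Group Γ] [AddCommGroup U] [Module ℚ U] (D : Lin Γ U)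
    [FiniteDimensional ℚ U]
    (h : ∀ g, D.ψ g ≠ 1 → ∀ u, D.L g u = u → u = 0) : FJ Γ := by
  classical
  by_cases h0 : ∀ g, D.ψ g = 1
  · exact FJP.sub ((MonoidHom.id Γ).codRestrict D.ψ.ker h0)
      (fun _ _ e => congrArg Subtype.val e) (lin_ker D)
  obtain ⟨g, hg⟩ := not_forall.1 h0
  obtain ⟨m, hm, hc⟩ := D.central
  have h1 : D.ψ (g ^ m) ≠ 1 := fun e => hg (by
    have e1 := congrArg Multiplicative.toAdd e
    rw [map_pow, toAdd_pow, toAdd_one, smul_eq_zero_iff_right hm.ne'] at e1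
    exact toAdd_eq_zero.1 e1)
  have h2 : Injective ((D.L (g ^ m) : U →ₗ[ℚ] U) - LinearMap.id : U →ₗ[ℚ] U) :=
    (injective_iff_map_eq_zero _).2 fun u hu => h _ h1 u (sub_eq_zero.1 hu)
  obtain ⟨b, b1, b2⟩ := D.cocycle (hc g) ⟨h2, LinearMap.injective_iff_surjective.1 h2⟩
  have b0 : b 1 = 0 := by rw [b2 1 D.A.one_mem, D.e_one]
  have := D.normal
  let B := Module.finBasis ℚ U
  let L := QuotientGroup.lift D.A (Hyp_mat D B) fun a ha => Units.ext (by
    change LinearMap.toMatrix B B (D.L a : U →ₗ[ℚ] U) = 1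
    rw [D.triv a ha, LinearEquiv.coe_toLinearMap_one, LinearMap.toMatrix_id])
  let ψ := QuotientGroup.lift D.A D.ψ D.le
  have hψ : (ψ.ker : Set (Γ ⧸ D.A)).Finite := by
    have : Finite (D.ψ.ker ⧸ D.A.subgroupOf D.ψ.ker) := Nat.finite_of_card_ne_zero D.idx
    refine (Set.finite_range fun x : D.ψ.ker ⧸ D.A.subgroupOf D.ψ.ker =>
      (QuotientGroup.mk x.out.1 : Γ ⧸ D.A)).subset fun y hy => ?_
    obtain ⟨γ, rfl⟩ := QuotientGroup.mk_surjective y
    refine ⟨QuotientGroup.mk ⟨γ, hy⟩, QuotientGroup.eq.2 ?_⟩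
    exact Subgroup.mem_subgroupOf.1 (QuotientGroup.eq.1 (QuotientGroup.out_eq'
      (QuotientGroup.mk ⟨γ, hy⟩ : D.ψ.ker ⧸ D.A.subgroupOf D.ψ.ker)))
  refine FJP.loc fun K hK => ?_
  obtain ⟨F, hF⟩ := BMain_land ((Group.fg_iff_subgroup_fg K).2 hK) ((Hyp_mat D B).comp K.subtype)
  obtain ⟨S, hS⟩ := hK
  obtain ⟨q, hq, hZ⟩ := exists_ZQ (F ∪ (S ×ˢ Finset.univ).image fun p => B.repr (b p.1) p.2)
  have hL : ∀ γ ∈ K, Hyp_mat D B γ ∈ GLZ (ZQ q) _ := fun γ hγ =>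
    hF _ (fun a ha => hZ a (Finset.mem_union_left _ ha)) ⟨γ, hγ⟩
  have hv : ∀ γ ∈ K, ∀ u, (∀ i, B.repr u i ∈ ZQ q) → ∀ i, B.repr (D.L γ u) i ∈ ZQ q :=
    fun γ hγ u hu i => by
      rw [← Hyp_mat_mulVec]
      exact (ZQ q).sum_mem (t := Finset.univ) fun j _ => mul_mem ((hL γ hγ).1 i j) (hu j)
  have hb : ∀ γ ∈ K, ∀ i, B.repr (b γ) i ∈ ZQ q := by
    intro γ hγ
    rw [← hS] at hγ hv
    induction hγ using Subgroup.closure_induction with
    | mem x hx =>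
      exact fun i => hZ _ (Finset.mem_union_right _ (Finset.mem_image.2
        ⟨(x, i), Finset.mem_product.2 ⟨hx, Finset.mem_univ _⟩, rfl⟩))
    | one =>
      intro i
      rw [b0, map_zero]
      exact zero_mem _
    | mul x y hx _ ihx ihy =>
      intro i
      rw [b1, map_add]
      exact add_mem (ihx i) (hv x hx _ ihy i)
    | inv x hx ih =>
      intro i
      have e := b1 x⁻¹ x
      rw [inv_mul_cancel, b0, eq_comm, add_eq_zero_iff_eq_neg] at e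
      rw [e, map_neg]
      exact neg_mem (hv _ (inv_mem hx) _ ih i)
  let V := K.map (QuotientGroup.mk' D.A)
  let L' : V →* GLZ (ZQ q) _ := (L.comp V.subtype).codRestrict _ (by
    rintro ⟨_, γ, hγ, rfl⟩
    exact hL γ hγ)
  let j : K →* Aff L' := MonoidHom.mk'
    (fun γ => ⟨B.repr (b γ), hb γ γ.2, ⟨QuotientGroup.mk γ.1, γ.1, γ.2, rfl⟩⟩) fun γ δ =>
      Aff.ext (by
        change ⇑(B.repr (b (γ * δ))) = B.repr (b γ) + (Hyp_mat D B γ).val.mulVec (B.repr (b δ))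
        rw [Hyp_mat_mulVec, b1, map_add]
        rfl) rfl
  refine FJP.sub j ((injective_iff_map_eq_one j).2 fun γ e => ?_)
    (fj_aff hq L' (ψ.comp V.subtype) ?_ ?_)
  · have e1 : γ.1 ∈ D.A := (QuotientGroup.eq_one_iff _).1 (congrArg (fun x => x.g.1) e)
    have e2 : B.repr (b γ) = 0 := DFunLike.coe_injective (congrArg Aff.a e)
    rw [map_eq_zero_iff _ B.repr.injective, b2 _ e1] at e2
    exact Subtype.ext (D.inj _ e1 e2)
  · have := hψ.to_subtype
    exact Finite.of_injective (fun x : (ψ.comp V.subtype).ker => (⟨x.1.1, x.2⟩ : ψ.ker))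
      fun x y e => Subtype.ext (Subtype.ext (Subtype.mk.inj e))
  · rintro ⟨_, γ, hγ, rfl⟩ e
    exact Hyp_det D B (h γ e)

theorem Lin3_top {Γ U : Type} [Group Γ] [AddCommGroup U] [Module ℚ U] (D : Lin Γ U) {t : Γ}
    (h1 : D.ψ t ≠ 1) (ht : ∀ γ, t * γ * t⁻¹ * γ⁻¹ ∈ D.A) (hL : ∀ u, D.L t u = u) : FJ Γ := by
  have := D.normal
  have hc : ∀ a ∈ D.A, Commute t a := fun a ha => by
    have := D.e_inj (D.normal.conj_mem a ha t) ha (by rw [D.conj t a ha, hL])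
    exact mul_inv_eq_iff_eq_mul.1 this
  have hq : ∀ γ : Γ ⧸ D.A, Commute (QuotientGroup.mk' D.A t) γ := fun γ => by
    obtain ⟨γ, rfl⟩ := QuotientGroup.mk'_surjective D.A γ
    have : QuotientGroup.mk' D.A (t * γ * t⁻¹ * γ⁻¹) = 1 := (QuotientGroup.eq_one_iff _).2 (ht γ)
    rw [map_mul, map_mul, map_mul, map_inv, map_inv] at this
    exact commutatorElement_eq_one_iff_commute.1 this
  have hn : (Subgroup.zpowers (QuotientGroup.mk' D.A t)).Normal := ⟨by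
    rintro _ ⟨n, rfl⟩ g
    refine ⟨n, ?_⟩
    simp only
    rw [← ((hq g).zpow_left n).eq, mul_inv_cancel_right]⟩
  set H := (Subgroup.zpowers (QuotientGroup.mk' D.A t)).comap (QuotientGroup.mk' D.A) with hH
  have hm : ∀ x, x ∈ H ↔ ∃ n : ℤ, (t ^ n)⁻¹ * x ∈ D.A := fun x => by
    rw [hH, Subgroup.mem_comap, Subgroup.mem_zpowers_iff]
    refine exists_congr fun n => ?_
    rw [← map_zpow]
    exact QuotientGroup.eq
  have hAH : D.A ≤ H := fun a ha => (hm a).2 ⟨0, by simpa using ha⟩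
  refine fj_vab H ⟨?_⟩ ?_
  · have e1 : H.relIndex D.ψ.ker ≠ 0 :=
      ne_zero_of_dvd_ne_zero D.idx (Subgroup.relIndex_dvd_of_le_left _ hAH)
    have e2 : ((Subgroup.zpowers (D.ψ t)).comap D.ψ).index ≠ 0 := by
      rw [Subgroup.index_comap]
      have : (Subgroup.zpowers (D.ψ t)).FiniteIndex := ⟨Lin3_zp _ h1⟩
      exact Subgroup.FiniteIndex.index_ne_zero (H := Subgroup.subgroupOf _ _)
    have e3 : (Subgroup.zpowers (D.ψ t)).comap D.ψ ≤ D.ψ.ker ⊔ H := by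
      rintro x ⟨n, hn⟩
      have : x = (x * (t ^ n)⁻¹) * t ^ n := by group
      rw [this]
      refine Subgroup.mul_mem_sup ?_ ((hm _).2 ⟨n, by simp⟩)
      rw [MonoidHom.mem_ker, map_mul, map_inv, map_zpow, ← hn]
      simp
    rw [← Subgroup.relIndex_mul_index (le_sup_right : H ≤ D.ψ.ker ⊔ H),
      Subgroup.relIndex_sup_right]
    exact mul_ne_zero e1 (ne_zero_of_dvd_ne_zero e2 (Subgroup.index_dvd_of_le e3))
  · intro x hx y hy
    obtain ⟨n, hn⟩ := (hm x).1 hx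
    obtain ⟨k, hk⟩ := (hm y).1 hy
    have ex : x = t ^ n * ((t ^ n)⁻¹ * x) := by group
    have ey : y = t ^ k * ((t ^ k)⁻¹ * y) := by group
    have : Commute (t ^ n * ((t ^ n)⁻¹ * x)) (t ^ k * ((t ^ k)⁻¹ * y)) :=
      Commute.mul_left
        (Commute.mul_right ((Commute.refl t).zpow_zpow n k) ((hc _ hk).zpow_left n))
        (Commute.mul_right ((hc _ hn).zpow_left k).symm (D.comm hn hk))
    rw [← ex, ← ey] at this
    exact this

theorem Lin3_ind (n : ℕ) : ∀ (Γ U : Type) [Group Γ] [AddCommGroup U] [Module ℚ U]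
    [FiniteDimensional ℚ U], Lin Γ U → Module.finrank ℚ U = n → FJ Γ := by
  induction n using Nat.strong_induction_on with
  | _ n ih =>
  intro Γ U _ _ _ _ D hn
  by_cases h : ∀ g, D.ψ g ≠ 1 → ∀ u, D.L g u = u → u = 0
  · exact lin_hyp D h
  push Not at h
  obtain ⟨g, hg, u, hu, hu0⟩ := h
  obtain ⟨m, hm, hc⟩ := D.central
  have h1 : D.ψ (g ^ m) ≠ 1 := by
    rw [map_pow]
    intro h
    apply hg
    have := congrArg Multiplicative.toAdd h
    simp only [toAdd_pow, toAdd_one, nsmul_eq_mul, mul_eq_zero, Nat.cast_eq_zero] at this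
    exact this.resolve_left hm.ne'
  have hcm : ∀ γ v, D.L (g ^ m) (D.L γ v) = D.L γ (D.L (g ^ m) v) := fun γ v => by
    have h2 := D.triv _ (hc g γ)
    rw [map_mul, map_mul, map_mul, map_inv, map_inv] at h2
    have h3 : Commute (D.L (g ^ m)) (D.L γ) := commutatorElement_eq_one_iff_commute.1 h2
    exact congrArg (fun f : U ≃ₗ[ℚ] U => f v) h3.eq
  let W : Submodule ℚ U := LinearMap.eqLocus (D.L (g ^ m)).toLinearMap LinearMap.id
  have mW : ∀ v, v ∈ W ↔ D.L (g ^ m) v = v := fun v => Iff.rfl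
  have hW : ∀ γ, ∀ v ∈ W, D.L γ v ∈ W := fun γ v hv => by
    rw [mW] at hv ⊢
    rw [hcm, hv]
  have huW : u ∈ W := by
    rw [mW]
    clear h1 hcm hW mW hc hm W
    induction m with
    | zero => simp
    | succ k ihk => rw [pow_succ, map_mul, LinearEquiv.mul_apply, hu, ihk]
  by_cases hT : W = ⊤
  · exact Lin3_top D h1 (hc g) fun v => (mW v).1 (hT ▸ Submodule.mem_top)
  obtain ⟨Γ', _, p, hp, ⟨D'⟩⟩ := D.quot W hW
  have hpos : 0 < Module.finrank ℚ W :=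
    Module.finrank_pos_iff_exists_ne_zero.2 ⟨⟨u, huW⟩, fun h => hu0 (congrArg Subtype.val h)⟩
  refine FJP.ext p (ih _ ?_ Γ' (U ⧸ W) D' rfl) fun B hB => ?_
  · have := Submodule.finrank_quotient_add_finrank W
    omega
  · obtain ⟨D''⟩ := Lin3_res D W hW p hp B hB
    exact ih _ (hn ▸ Submodule.finrank_lt hT) _ W D'' rfl

theorem fj_lin_fin (Γ U : Type) [Group Γ] [AddCommGroup U] [Module ℚ U] [FiniteDimensional ℚ U]
    (D : Lin Γ U) : FJ Γ :=
  Lin3_ind _ Γ U D rfl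

end Pool.Agent.MP_f7db47_al.VD
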