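import Pool.Agent.MP_f7db47_al.VD.D0

/-!
Finitely generated modules over Laurent polynomial rings.
-/

namespace Pool.Agent.MP_f7db47_al.VD

open GN GF VC Function

theorem Mod_dom (R M : Type) [CommRing R] [IsDomain R] [AddCommGroup M] [Module R M]
    [Module.Finite R M] : ∃ (ι : Type) (_ : Finite ι) (a : R) (Λ : M →ₗ[R] (ι →₀ R)),
    a ≠ 0 ∧ ∀ x, Λ x = 0 → a • x = 0 := by
  classical
  obtain ⟨n, s, hs⟩ := Module.Finite.exists_fin (R := R) (M := M)
  obtain ⟨I, h1, h2⟩ := exists_maximal_linearIndepOn R s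
  have h3 : ∀ i, ∃ a : R, a ≠ 0 ∧ a • s i ∈ Submodule.span R (Set.range fun x : I => s x) := by
    intro i
    by_cases hi : i ∈ I
    · exact ⟨1, one_ne_zero, by rw [one_smul]; exact Submodule.subset_span ⟨⟨i, hi⟩, rfl⟩⟩
    · simpa only [Set.image_eq_range s I] using h2 i hi
  choose a ha ha' using h3
  have h4 : ∀ x, LinearMap.lsmul R M (∏ i, a i) x ∈
      Submodule.span R (Set.range fun x : I => s x) := fun x => by
    have hx : x ∈ Submodule.span R (Set.range s) := hs ▸ Submodule.mem_top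
    refine (Submodule.map_span_le _ _ _).2 ?_ (Submodule.mem_map_of_mem hx)
    rintro _ ⟨i, rfl⟩
    rw [LinearMap.lsmul_apply, Fintype.prod_eq_prod_compl_mul i, mul_smul]
    exact Submodule.smul_mem _ _ (ha' i)
  refine ⟨I, inferInstance, ∏ i, a i, (LinearIndependent.repr h1).comp
    ((LinearMap.lsmul R M (∏ i, a i)).codRestrict _ h4), Finset.prod_ne_zero_iff.2 fun i _ => ha i,
    fun x hx => ?_⟩
  exact congrArg Subtype.val (LinearMap.ker_eq_bot'.1 (LinearIndependent.repr_ker h1) _ hx)

theorem Mod_fin {k : Type} [Field k] {a : LaurentPolynomial k} (ha : a ≠ 0) :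
    Module.Finite k (LaurentPolynomial k ⧸ (LaurentPolynomial k) ∙ a) := by
  have := IsLocalization.isDedekindDomain (Polynomial k) (M := Submonoid.powers Polynomial.X)
    (powers_le_nonZeroDivisors_of_noZeroDivisors Polynomial.X_ne_zero) (LaurentPolynomial k)
  refine (Module.finite_iff_krullDimLE_zero k _).2
    (Ideal.krullDimLE_zero_quotient_iff_forall_minimalPrimes_isMaximal.2 fun J hJ => ?_)
  exact hJ.1.1.isMaximal fun e => ha (by
    have h := hJ.1.2 (Submodule.mem_span_singleton_self a)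
    rwa [e] at h)

theorem exists_fun {k U : Type} [Field k] [AddCommGroup U] [Module k U]
    (ρ : MZ →* Module.End k U) (F : Set U) (hF : F.Finite) :
    ∃ (ι : Type) (_ : Finite ι) (M : AddSubgroup U) (V : Submodule k U) (Λ : M →+ ι → ℤ →₀ k)
      (h : ∀ z, ∀ u ∈ M, ρ z u ∈ M), FiniteDimensional k V ∧ F ⊆ M ∧
      (∀ z (u : M) i j, Λ ⟨_, h z u u.2⟩ i j = Λ u i (j - z.toAdd)) ∧
      ∀ u, Λ u = 0 → u.1 ∈ V := by
  let _ : Module (LaurentPolynomial k) U :=
    Module.compHom U (AddMonoidAlgebra.lift k (Module.End k U) ℤ ρ).toRingHom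
  have hs : ∀ (r : LaurentPolynomial k) (u : U),
      r • u = AddMonoidAlgebra.lift k (Module.End k U) ℤ ρ r u := fun _ _ => rfl
  have : IsScalarTower k (LaurentPolynomial k) U :=
    ⟨fun c r u => by rw [hs, hs, map_smul, LinearMap.smul_apply]⟩
  have hT : ∀ (z : MZ) (u : U),
      ρ z u = (AddMonoidAlgebra.single z.toAdd 1 : LaurentPolynomial k) • u := fun z u => by
    rw [hs, AddMonoidAlgebra.lift_single, one_smul]
    rfl
  let M := Submodule.span (LaurentPolynomial k) F
  have : Module.Finite (LaurentPolynomial k) M := Module.Finite.span_of_finite _ hF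
  obtain ⟨ι, _, a, Λ, ha, hΛ⟩ := Mod_dom (LaurentPolynomial k) M
  have := Mod_fin ha
  have : IsNoetherianRing (LaurentPolynomial k) := Algebra.FiniteType.isNoetherianRing k _
  let W := Submodule.torsionBy (LaurentPolynomial k) M a
  have : Module.Finite (LaurentPolynomial k ⧸ (LaurentPolynomial k) ∙ a) W :=
    Module.Finite.of_restrictScalars_finite (LaurentPolynomial k) _ _
  have : Module.Finite k W :=
    Module.Finite.trans (LaurentPolynomial k ⧸ (LaurentPolynomial k) ∙ a) W
  refine ⟨ι, inferInstance, M.toAddSubgroup,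
    LinearMap.range ((M.subtype.comp W.subtype).restrictScalars k),
    AddMonoidHom.mk' (fun u i => (Λ u i).coeff) fun u u' => ?_,
    fun z u hu => hT z u ▸ M.smul_mem _ hu, inferInstance, Submodule.subset_span,
    fun z u i j => ?_, fun u hu => ⟨⟨u, hΛ u (Finsupp.ext fun i => ?_)⟩, rfl⟩⟩
  · funext i
    exact congrArg (fun x : ι →₀ LaurentPolynomial k => (x i).coeff) (Λ.map_add u u')
  · have e := Λ.map_smul (AddMonoidAlgebra.single z.toAdd 1 : LaurentPolynomial k) u
    change (Λ _ i).coeff j = (Λ u i).coeff _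
    rw [sub_eq_neg_add, ← one_mul ((Λ u i).coeff _), ← AddMonoidAlgebra.coeff_single_mul_apply,
      ← smul_eq_mul, ← Finsupp.smul_apply, ← e]
    congr 4
    exact Subtype.ext (hT z u)
  · exact AddMonoidAlgebra.coeff_eq_zero.1 (congrFun hu i)

end Pool.Agent.MP_f7db47_al.VD
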