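import Pool.Agent.MP_f7db47_al.VD.Fc
import Pool.Agent.MP_f7db47_al.VC.Vab

/-!
Virtually abelian groups.
-/

namespace Pool.Agent.MP_f7db47_al.VD

open GN GF VC Function

variable {P : Cls}

theorem fj_wr (ι : Type) [Fintype ι] : FJP P (Wr ι) := by
  refine FJP.flow (wr_pack ι) (fun B φ h => FJP.of_vc ⟨φ, ?_⟩) fun B hB => hB.elim
  refine Finite.of_injective (((Vab_perm ι).comp B.subtype).comp φ.ker.subtype)
    ((injective_iff_map_eq_one _).2 fun x hx => Subtype.ext (Subtype.ext ?_))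
  exact Vab_tors hx (B.subtype.isOfFinOrder (h x.1 x.2))

theorem fj_vab {Γ : Type} [Group Γ] (U : Subgroup Γ) (hU : U.FiniteIndex)
    (hc : ∀ a ∈ U, ∀ b ∈ U, a * b = b * a) : FJP P Γ := by
  refine FJP.loc fun K hK => ?_
  have : Group.FG K := (Group.fg_iff_subgroup_fg K).2 hK
  obtain ⟨V, n, θ, hV, hθ, hn⟩ := Vab_ab (M := U.subgroupOf K) inferInstance
    fun a b => Subtype.ext (Subtype.ext (hc _ a.2 _ b.2))
  let e := V.equivMapOfInjective _ (U.subgroupOf K).subtype_injective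
  have : (V.map (U.subgroupOf K).subtype).FiniteIndex := ⟨by
    rw [Subgroup.index_map_subtype]
    exact mul_ne_zero hV.index_ne_zero Subgroup.FiniteIndex.index_ne_zero⟩
  obtain ⟨j, hj⟩ := exists_wr _ (θ.comp e.symm.toMonoidHom) (hθ.comp e.symm.injective) hn
  have := Fintype.ofFinite ((K ⧸ V.map (U.subgroupOf K).subtype) × Fin n)
  exact FJP.sub j hj (fj_wr _)

end Pool.Agent.MP_f7db47_al.VD
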